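import Pool.Agent.Helper88.TU.Goals
import Pool.Agent.Helper74.PP.TL

/-! # TU: sizes of the parameters -/

set_option autoImplicit false

open Finset Filter Topology

open scoped Classical

namespace Pool.Agent.Helper88.TU

open Pool.Agent.Helper88.PP (pr Rg om Sf SS uu vv ee LA VV QQ cost)
open Pool.Agent.Helper88.RR (gg)

/-- the basic inequalities -/
theorem size : ∃ E0 : ℕ, ∀ E z x y : ℕ, E0 ≤ E → Su E z x y →
    (E : ℝ) ≤ Real.log z ∧ (E : ℝ) * Real.log z ≤ Real.log x ∧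
    Real.log x ≤ 2 * (E * Real.log z) ∧ Real.log x ≤ 2 * Real.log z ^ 2 ∧
    (E : ℝ) ^ 2 ≤ Real.log x ∧ E ^ 2 ≤ y ∧ 2 ≤ y ∧ y ^ 2 ≤ z ∧ y ≤ z ∧ 64 ≤ z ∧ z ≤ x ∧
    64 * y ≤ x ∧ 1 ≤ Real.log (Real.log x) ∧ Real.log (QQ x) ≤ 7 / 100 * Real.log x := by
  have ev : ∀ᶠ w : ℝ in atTop, (2 * w ^ 2) ^ 4 ≤ Real.exp w := by
    have h1 : ∀ᶠ w : ℝ in atTop, w ^ 8 * Real.exp (-w) < 1 / 16 :=
      (Real.tendsto_pow_mul_exp_neg_atTop_nhds_zero 8).eventually (gt_mem_nhds (by positivity))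
    filter_upwards [h1] with w hw
    rw [Real.exp_neg, ← div_eq_mul_inv, div_lt_iff₀ (Real.exp_pos _)] at hw
    have : (2 * w ^ 2) ^ 4 = 16 * w ^ 8 := by ring
    linarith
  obtain ⟨w0, hw0⟩ := eventually_atTop.1 ev
  refine ⟨max 64 ⌈w0⌉₊, fun E z x y hE hS => ?_⟩
  obtain ⟨a1, a2, a3, a4, a5⟩ := hS
  have hE64 : 64 ≤ E := (le_max_left _ _).trans hE
  have hEw : w0 ≤ E := (Nat.le_ceil w0).trans (by exact_mod_cast (le_max_right _ _).trans hE)
  have hE' : (64 : ℝ) ≤ E := by exact_mod_cast hE64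
  have hz65 : (65 : ℝ) ≤ z := by
    have := Real.add_one_le_exp (E : ℝ)
    linarith
  have hz0 : (0 : ℝ) < z := by linarith
  have hw : (E : ℝ) ≤ Real.log z := by
    have := Real.log_le_log (Real.exp_pos _) a1
    rwa [Real.log_exp] at this
  have hw64 : (64 : ℝ) ≤ Real.log z := hE'.trans hw
  have hzx : z ≤ x := le_trans (Nat.le_self_pow (by omega) z) a2
  have hx0 : (0 : ℝ) < x := lt_of_lt_of_le hz0 (by exact_mod_cast hzx)
  have b2 : (E : ℝ) * Real.log z ≤ Real.log x := by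
    rw [← Real.log_pow]
    exact Real.log_le_log (by positivity) (by exact_mod_cast a2)
  have b3 : Real.log x ≤ 2 * (E * Real.log z) := by
    have h1 : Real.log x ≤ E * Real.log ((z : ℝ) + 1) := by
      rw [← Real.log_pow]
      exact Real.log_le_log hx0 (by exact_mod_cast a3.le)
    have h2 : Real.log ((z : ℝ) + 1) ≤ 2 * Real.log z := by
      have h3 : Real.log ((z : ℝ) + 1) ≤ Real.log ((z : ℝ) ^ 2) :=
        Real.log_le_log (by linarith) (by nlinarith)
      rwa [Real.log_pow] at h3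
    nlinarith
  have b4 : Real.log x ≤ 2 * Real.log z ^ 2 := by nlinarith
  have b5 : (E : ℝ) ^ 2 ≤ Real.log x := by nlinarith
  have b6 : E ^ 2 ≤ y := by
    have : ((E ^ 2 : ℕ) : ℝ) ≤ y := by push_cast; linarith
    exact_mod_cast this
  have b7 : 2 ≤ y := by nlinarith
  have hlx0 : 0 ≤ Real.log x := by nlinarith
  have b8 : y ^ 2 ≤ z := by
    have h1 : (y : ℝ) ^ 2 ≤ (Real.log x ^ 2) ^ 2 := pow_le_pow_left₀ (Nat.cast_nonneg _) a5 2
    have h2 : Real.log x ^ 4 ≤ (2 * Real.log z ^ 2) ^ 4 := pow_le_pow_left₀ hlx0 b4 4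
    have h3 := hw0 (Real.log z) (hEw.trans hw)
    rw [Real.exp_log hz0] at h3
    have h4 : ((y ^ 2 : ℕ) : ℝ) ≤ z := by
      push_cast
      calc (y : ℝ) ^ 2 ≤ (Real.log x ^ 2) ^ 2 := h1
        _ = Real.log x ^ 4 := by ring
        _ ≤ z := h2.trans h3
    exact_mod_cast h4
  have b9 : y ≤ z := le_trans (Nat.le_self_pow (by norm_num) y) b8
  have b10 : 64 ≤ z := by
    have : (64 : ℝ) ≤ z := by linarith
    exact_mod_cast this
  have b11 : 64 * y ≤ x := by
    calc 64 * y ≤ z * z := Nat.mul_le_mul b10 b9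
      _ = z ^ 2 := by ring
      _ ≤ z ^ E := Nat.pow_le_pow_right (by omega) (by omega)
      _ ≤ x := a2
  have hlx : 64 ^ 2 ≤ Real.log x := by nlinarith
  have b12 : 1 ≤ Real.log (Real.log x) := by
    rw [Real.le_log_iff_exp_le (by linarith)]
    have := Real.exp_one_lt_d9
    linarith
  refine ⟨hw, b2, b3, b4, b5, b6, b7, b8, b9, b10, hzx, b11, b12, ?_⟩
  have h1 : QQ x ≤ 4 ^ ⌊Real.log x / 20⌋₊ := primorial_le_four_pow _
  have h2 : (QQ x : ℝ) ≤ (4 : ℝ) ^ ⌊Real.log x / 20⌋₊ := by exact_mod_cast h1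
  have h3 : (0 : ℝ) < QQ x := by exact_mod_cast primorial_pos _
  have h4 : Real.log (QQ x) ≤ (⌊Real.log x / 20⌋₊ : ℝ) * Real.log 4 := by
    rw [← Real.log_pow]
    exact Real.log_le_log h3 h2
  have h5 : (⌊Real.log x / 20⌋₊ : ℝ) ≤ Real.log x / 20 := Nat.floor_le (by positivity)
  have h6 : Real.log 4 ≤ 7 / 5 := by
    have h7 : Real.log 4 = 2 * Real.log 2 := by
      rw [show (4 : ℝ) = 2 ^ 2 by norm_num, Real.log_pow]
      norm_num
    have := Real.log_two_lt_d9
    rw [h7]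
    linarith
  have h8 : 0 ≤ Real.log (4 : ℝ) := Real.log_nonneg (by norm_num)
  calc Real.log (QQ x) ≤ (⌊Real.log x / 20⌋₊ : ℝ) * Real.log 4 := h4
    _ ≤ Real.log x / 20 * (7 / 5) := mul_le_mul h5 h6 h8 (by positivity)
    _ = 7 / 100 * Real.log x := by ring

/-- powers of `log x`, also with exponents up to `√E`, are smaller than any power of `z` -/
theorem size_pow (A δ : ℝ) (hδ : 0 < δ) : ∃ E0 : ℕ, ∀ E z x y : ℕ, E0 ≤ E → Su E z x y →
    A * (1 + √(E : ℝ)) * (1 + Real.log (Real.log x)) ≤ δ * Real.log z := by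
  obtain ⟨E1, h1⟩ := size
  have ev : ∀ᶠ w : ℝ in atTop, |A| * (1 + √w) * (3 + 2 * Real.log w) ≤ δ * w := by
    have e1 : ∀ᶠ w : ℝ in atTop, ‖Real.log w‖ ≤ 1 * ‖w ^ (1 / 4 : ℝ)‖ :=
      (isLittleO_log_rpow_atTop (by norm_num : (0 : ℝ) < 1 / 4)).bound (by norm_num)
    have e2 : Tendsto (fun w : ℝ => w ^ (1 / 4 : ℝ)) atTop atTop :=
      tendsto_rpow_atTop (by norm_num)
    filter_upwards [e1, e2.eventually_ge_atTop (10 * |A| / δ), eventually_ge_atTop (1 : ℝ)]
      with w f1 f2 f3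
    have hw0 : 0 < w := by linarith
    set v := w ^ (1 / 4 : ℝ) with hv
    have hv1 : 1 ≤ v := Real.one_le_rpow f3 (by norm_num)
    have hv4 : v ^ 4 = w := by
      rw [hv, ← Real.rpow_natCast, ← Real.rpow_mul hw0.le]
      norm_num
    have hsq : √w = v ^ 2 := by
      rw [show w = (v ^ 2) ^ 2 by rw [← hv4]; ring]
      exact Real.sqrt_sq (by positivity)
    rw [Real.norm_of_nonneg (Real.log_nonneg f3), Real.norm_of_nonneg (by positivity),
      one_mul] at f1
    rw [hsq]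
    have g1 : 3 + 2 * Real.log w ≤ 5 * v := by linarith
    have g2 : 1 + v ^ 2 ≤ 2 * v ^ 2 := by nlinarith
    have g3 : 10 * |A| ≤ δ * v := by
      rw [div_le_iff₀ hδ] at f2
      linarith
    have g0 : 0 ≤ 3 + 2 * Real.log w := by
      have := Real.log_nonneg f3
      linarith
    calc |A| * (1 + v ^ 2) * (3 + 2 * Real.log w) ≤ |A| * (2 * v ^ 2) * (5 * v) := by gcongr
      _ = (10 * |A|) * v ^ 3 := by ring
      _ ≤ (δ * v) * v ^ 3 := mul_le_mul_of_nonneg_right g3 (by positivity)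
      _ = δ * v ^ 4 := by ring
      _ = δ * w := by rw [hv4]
  obtain ⟨w0, hw0⟩ := eventually_atTop.1 ev
  refine ⟨max (max E1 ⌈w0⌉₊) 1, fun E z x y hE hS => ?_⟩
  obtain ⟨a1, a2, a3, a4, a5, a6, a7, a8, a9, a10, a11, a12, a13, a14⟩ :=
    h1 E z x y ((le_max_left _ _).trans ((le_max_left _ _).trans hE)) hS
  have hEw : w0 ≤ E := (Nat.le_ceil w0).trans
    (by exact_mod_cast (le_max_right _ _).trans ((le_max_left _ _).trans hE))
  have hE1 : (1 : ℝ) ≤ E := by exact_mod_cast (le_max_right _ _).trans hE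
  have hw1 : 1 ≤ Real.log z := hE1.trans a1
  have h2 := hw0 (Real.log z) (hEw.trans a1)
  have hlx : 0 < Real.log x := by nlinarith
  have h3 : Real.log (Real.log x) ≤ 2 + 2 * Real.log (Real.log z) := by
    have h4 : Real.log (Real.log x) ≤ Real.log (2 * Real.log z ^ 2) := Real.log_le_log hlx a4
    rw [Real.log_mul (by norm_num) (by positivity), Real.log_pow] at h4
    have := Real.log_two_lt_d9
    push_cast at h4
    linarith
  have h5 : √(E : ℝ) ≤ √(Real.log z) := Real.sqrt_le_sqrt a1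
  calc A * (1 + √(E : ℝ)) * (1 + Real.log (Real.log x))
      ≤ |A| * (1 + √(E : ℝ)) * (1 + Real.log (Real.log x)) := by
        have := le_abs_self A
        have h6 : 0 ≤ (1 + √(E : ℝ)) * (1 + Real.log (Real.log x)) := by positivity
        nlinarith
    _ ≤ |A| * (1 + √(Real.log z)) * (3 + 2 * Real.log (Real.log z)) := by
        have h6 : 0 ≤ 1 + Real.log (Real.log x) := by linarith
        have h7 : 1 + Real.log (Real.log x) ≤ 3 + 2 * Real.log (Real.log z) := by linarith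
        gcongr
    _ ≤ δ * Real.log z := h2

/-- lower bounds for the densities: `om`, and `gg y z k` if `k² ≤ E`, are at least `z^(-δ)` -/
theorem size_gg (δ : ℝ) (hδ : 0 < δ) : ∃ E0 : ℕ, ∀ E z x y : ℕ, E0 ≤ E → Su E z x y →
    Real.exp (-(δ * Real.log z)) ≤ om y z ∧ ∀ k : ℕ, k ^ 2 ≤ E →
    Real.exp (-(δ * Real.log z)) ≤ gg y z k ∧ gg y z k ≤ om y z ^ k ∧
    om y z ^ k ≤ 2 * gg y z k := by
  obtain ⟨E1, h1⟩ := size
  obtain ⟨c2, hc2, hom⟩ := Pool.Agent.Helper74.PP.om_lower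
  obtain ⟨E2, h2⟩ := size_pow (2 + |Real.log c2|) δ hδ
  refine ⟨max (max E1 E2) 4, fun E z x y hE hS => ?_⟩
  obtain ⟨a1, a2, a3, a4, a5, a6, a7, a8, a9, a10, a11, a12, a13, a14⟩ :=
    h1 E z x y ((le_max_left _ _).trans ((le_max_left _ _).trans hE)) hS
  have b1 := h2 E z x y ((le_max_right _ _).trans ((le_max_left _ _).trans hE)) hS
  have hE4 : 4 ≤ E := (le_max_right _ _).trans hE
  have hE4' : (4 : ℝ) ≤ E := by exact_mod_cast hE4
  have hlz : 0 < Real.log z := by linarith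
  have hlx : Real.log z ≤ Real.log x := by nlinarith
  obtain ⟨d1, -⟩ := hom y z (by omega)
  have hom0 : 0 < om y z := lt_of_lt_of_le (by positivity) d1
  have key : ∀ k : ℕ, k ^ 2 ≤ E → Real.exp (-(δ * Real.log z)) ≤ om y z ^ k / 2 := by
    intro k hk
    have hk' : (k : ℝ) ≤ √(E : ℝ) := by
      apply Real.le_sqrt_of_sq_le
      exact_mod_cast hk
    have e1 : Real.exp (-(Real.log c2 + Real.log (Real.log x))) ≤ om y z := by
      refine le_trans ?_ d1
      rw [Real.exp_neg, Real.exp_add, Real.exp_log hc2, Real.exp_log (by linarith), ← one_div]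
      apply one_div_le_one_div_of_le (by positivity)
      exact mul_le_mul_of_nonneg_left hlx hc2.le
    have e2 : Real.exp (-(k * (Real.log c2 + Real.log (Real.log x)))) ≤ om y z ^ k := by
      have : Real.exp (-(k * (Real.log c2 + Real.log (Real.log x)))) =
          Real.exp (-(Real.log c2 + Real.log (Real.log x))) ^ k := by
        rw [← Real.exp_nat_mul]
        ring_nf
      rw [this]
      exact pow_le_pow_left₀ (Real.exp_pos _).le e1 k
    have e3 : Real.exp (-1) ≤ 1 / 2 := by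
      rw [Real.exp_neg, ← one_div]
      apply one_div_le_one_div_of_le (by norm_num)
      have := Real.exp_one_gt_d9
      linarith
    have e4 : (k : ℝ) * (Real.log c2 + Real.log (Real.log x)) + 1 ≤ δ * Real.log z := by
      refine le_trans ?_ b1
      have f1 : Real.log c2 ≤ |Real.log c2| := le_abs_self _
      have f0 : 0 ≤ |Real.log c2| := abs_nonneg _
      have f2 : (k : ℝ) * (Real.log c2 + Real.log (Real.log x)) ≤
          √(E : ℝ) * (|Real.log c2| + Real.log (Real.log x)) := by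
        have : (k : ℝ) * (Real.log c2 + Real.log (Real.log x)) ≤
            k * (|Real.log c2| + Real.log (Real.log x)) := by gcongr
        refine this.trans ?_
        have : 0 ≤ |Real.log c2| + Real.log (Real.log x) := by linarith
        gcongr
      have f3 : 0 ≤ √(E : ℝ) := Real.sqrt_nonneg _
      nlinarith [mul_nonneg f0 (by linarith : (0 : ℝ) ≤ Real.log (Real.log x)),
        mul_nonneg f3 (by linarith : (0 : ℝ) ≤ Real.log (Real.log x)),
        mul_nonneg (mul_nonneg f3 f0) (by linarith : (0 : ℝ) ≤ Real.log (Real.log x))]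
    calc Real.exp (-(δ * Real.log z))
        ≤ Real.exp (-(k * (Real.log c2 + Real.log (Real.log x))) + -1) := by
          apply Real.exp_le_exp.2
          linarith
      _ = Real.exp (-(k * (Real.log c2 + Real.log (Real.log x)))) * Real.exp (-1) :=
          Real.exp_add _ _
      _ ≤ om y z ^ k * (1 / 2) := mul_le_mul e2 e3 (Real.exp_pos _).le (by positivity)
      _ = om y z ^ k / 2 := by ring
  refine ⟨?_, fun k hk => ?_⟩
  · have := key 1 (by omega)
    rw [pow_one] at this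
    linarith
  · have hk2 : 4 * k ^ 2 ≤ y := by
      calc 4 * k ^ 2 ≤ E * E := Nat.mul_le_mul hE4 hk
        _ = E ^ 2 := by ring
        _ ≤ y := a6
    have hk1 : 2 * k ≤ y := by nlinarith
    obtain ⟨g1, g2, g3⟩ := Pool.Agent.Helper74.PP.om_pow y z k (by omega) hk1
    have hy0 : (0 : ℝ) < y := by exact_mod_cast (by omega : 0 < y)
    have g4 : 2 * (k : ℝ) ^ 2 / y ≤ 1 / 2 := by
      rw [div_le_iff₀ hy0]
      have : ((4 * k ^ 2 : ℕ) : ℝ) ≤ y := by exact_mod_cast hk2
      push_cast at this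
      linarith
    have g5 : om y z ^ k ≤ 2 * gg y z k := by
      have g6 := (abs_le.1 g1).1
      have g7 : 2 * (k : ℝ) ^ 2 / y * om y z ^ k ≤ 1 / 2 * om y z ^ k :=
        mul_le_mul_of_nonneg_right g4 (by positivity)
      unfold gg
      linarith
    refine ⟨?_, g2, g5⟩
    have := key k hk
    linarith

end Pool.Agent.Helper88.TU
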