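import Pool.Agent.Helper88.CG.Goals

/-!
# Chains of large gaps between primes, uniformly: statements

Main theorem (`StmtUC`): there are `c > 0` and `C` such that for every `k ≥ 1` there are `A` and `X`
such that for all `x ≥ X` and all `0 ≤ L ≤ (c / k^2) log log x`, at least
`(x / log x) exp (-A exp (C k^2 L))` of the `n` with `p (n + k) ≤ x` satisfy `g (n + i) ≥ L log x`
for `i = 0, .., k-1`.  (For fixed `L` a positive proportion of all gaps.)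

Structure: as `CG` (see `Pool/Agent/Helper88/CG/Goals.lean`) and `AC` (see
`Pool/Agent/Helper88/AC/AF.lean`), but now `E` may be bounded: the condition `(log log x)^3 ≤ E` of
`GM.Sr` is dropped (`Su` below).  So all errors must be relative to the density `om` of the rough
numbers, and the truncated inclusion-exclusion for the primes in `(y, z]` (Bonferroni, `RR.StmtBO`)
is replaced by the Brun-Hooley sieve (Part I).  Everything which needs a power of `log x` compared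
with `z` is harmless: `log x ≤ 2 (log z)^2` (`Pool/Agent/Helper88/TU/Size.lean`).
-/

set_option autoImplicit false

open Finset Filter Topology

open scoped Classical

namespace Pool.Agent.Helper88.TU

open Pool.Agent.Helper88.PP (pr Rg om Sf SS uu vv ee LA VV QQ cost)
open Pool.Agent.Helper88.RR (gg ab TB WB nz wb DB VM GB)
open Pool.Agent.Helper88.GM (NI XI In)
open Pool.Agent.Helper88.CG (tw pw th ic DS sg CN qE mE Wt Dt blk nb)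

/-- `z = x^(1/E)`, `z ≥ exp E`, `log x ≤ y ≤ (log x)^2` -/
def Su (E z x y : ℕ) : Prop :=
  Real.exp E ≤ z ∧ z ^ E ≤ x ∧ x < (z + 1) ^ E ∧ Real.log x ≤ y ∧ (y : ℝ) ≤ Real.log x ^ 2

/-! ## Part I: the Brun-Hooley sieve -/

/-- the primes of `(y, z]` in `(z^(1/2^(t+1)), z^(1/2^t)]` -/
noncomputable def Pt (y z t : ℕ) : Finset ℕ :=
  (pr y z).filter (fun p => z < p ^ 2 ^ (t + 1) ∧ p ^ 2 ^ t ≤ z)

/-- the number of primes of `Pt y z t` which are allowed; it is even -/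
def rt (E t : ℕ) : ℕ := 2 * (E / 256 + t)

/-- truncated inclusion-exclusion in the range `t` -/
noncomputable def Ut (E y z t : ℕ) (S : Finset ℕ) : ℝ :=
  ∑ A ∈ (Pt y z t).powerset.filter (fun A => A.card ≤ rt E t ∧ A ⊆ S), (-1 : ℝ) ^ A.card

/-- the first omitted term in the range `t` -/
noncomputable def Vt (E y z t : ℕ) (S : Finset ℕ) : ℝ :=
  (((Pt y z t).powerset.filter (fun A => A.card = rt E t + 1 ∧ A ⊆ S)).card : ℝ)

/-- the error function -/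
noncomputable def EF (E y z : ℕ) (S : Finset ℕ) : ℝ :=
  ∑ t ∈ range z, Vt E y z t S * ∏ s ∈ (range z).erase t, Ut E y z s S

/-- the admissible sets of primes -/
noncomputable def AA (E y z : ℕ) : Finset (Finset ℕ) :=
  (pr y z).powerset.filter (fun A => ∀ t < z, (A ∩ Pt y z t).card ≤ rt E t)

/-- the sets of primes of the error function -/
noncomputable def AX (E y z t : ℕ) : Finset (Finset ℕ) :=
  (pr y z).powerset.filter (fun A => (A ∩ Pt y z t).card = rt E t + 1 ∧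
    ∀ s < z, s ≠ t → (A ∩ Pt y z s).card ≤ rt E s)

/-- the primes in `(y, z]` which divide some `n + i`, `i ∈ B` -/
noncomputable def hit (y z : ℕ) (B : Finset ℕ) (n : ℕ) : Finset ℕ :=
  (pr y z).filter (fun p => ∃ i ∈ B, p ∣ n + i)

/-- PACKET BH (pointwise).  The `Pt y z t`, `t < z`, are a partition of `pr y z` (`2 ≤ p ≤ z`: there is
exactly one `t` with `p^(2^t) ≤ z < p^(2^(t+1))`, and `t < 2^t ≤ z` or so).  With
`N_t = #(S ∩ Pt y z t)`: `Ut = ∑_{j ≤ r} (-1)^j C(N_t, j) = C(N_t - 1, r) ≥ 0` for `N_t ≥ 1`, `r` even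
(`Int.alternating_sum_range_choose_of_ne`, or `RR.BO`-like induction), `1` for `N_t = 0`; and
`[N_t = 0] ≤ Ut ≤ [N_t = 0] + Vt`.  Product: `∏ Ut - ∏ [N_t = 0] = ∑_t (∏_{s<t} [N_s = 0]) (Ut - [N_t = 0])
∏_{s>t} Us ≤ EF`.  The last two identities: `Finset.prod_sum`-like expansion; a set `A ⊆ pr y z` is the
disjoint union of the `A ∩ Pt y z t` (induction over the set of the `t`; `#A = ∑ #(A ∩ Pt)`); in the
last one `rt + 1` is odd, which gives the sign `-`. -/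
def StmtBH : Prop := ∀ (E y z : ℕ) (S : Finset ℕ), 2 ≤ z → S ⊆ pr y z →
  (∀ t, 0 ≤ Ut E y z t S) ∧
  (if S = ∅ then (1 : ℝ) else 0) ≤ ∏ t ∈ range z, Ut E y z t S ∧
  ∏ t ∈ range z, Ut E y z t S ≤ (if S = ∅ then (1 : ℝ) else 0) + EF E y z S ∧
  ∏ t ∈ range z, Ut E y z t S = ∑ A ∈ (AA E y z).filter (fun A => A ⊆ S), (-1 : ℝ) ^ A.card ∧
  EF E y z S =
    -∑ t ∈ range z, ∑ A ∈ (AX E y z t).filter (fun A => A ⊆ S), (-1 : ℝ) ^ A.card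

/-- PACKET BM (the main terms).  `x_p = k/p ≤ 1/2` for `p > y ≥ E² ≥ 2k`.  In the range `t`:
`L_t = ∑_{p ∈ Pt} 1/p ≤ 1` for large `y` (Mertens, `Pool/Agent/Helper88/PP` and `Helper37/PP/MP`: all
`p ∈ Pt` are in `(w, w²]`, `w = max y (z^(1/2^(t+1)))`; if `L_t` is bounded by any absolute constant the
proof is the same), `π_t = ∏_{p ∈ Pt} (1 - k/p) ≥ exp(-2 k L_t)`,
`|∑_{A ⊆ Pt, #A ≤ r} ∏ (-k/p) - π_t| ≤ ∑_{#A = r+1} ∏ k/p ≤ (k L_t)^(r+1)/(r+1)! =: w_t` (Bonferroni for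
numbers in `[0,1]`; induction), `ε_t = w_t/π_t ≤ exp(2k) (e k/(r+1))^(r+1) ≤ exp(-2E - t)/4` for `E ≥ E0`, since
`r + 1 ≥ E/128 - 1 + 2t` and `k ≤ √E`.  The two sums factor over `t` (as in BH): `∏ u_t` with
`|u_t - π_t| ≤ ε_t π_t`, and `∑_t v_t ∏_{s ≠ t} u_s`, `0 ≤ v_t ≤ ε_t π_t`; `∏ (1 + ε_t) ≤ 1 + 2 ∑ ε_t`.
Sizes: `∏ A ≤ z^(∑_t rt E t/2^t) ≤ z^(4 (E/256) + 4)`, and one more prime for `AX`. -/
def StmtBM : Prop := ∃ E0 : ℕ, ∀ E y z k : ℕ, E0 ≤ E → Real.exp E ≤ z → E ^ 2 ≤ y → y ≤ z →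
  k ^ 2 ≤ E → 0 < gg y z k ∧
  |∑ A ∈ AA E y z, (-1 : ℝ) ^ A.card * ∏ p ∈ A, ((k : ℝ) / p) - gg y z k|
    ≤ Real.exp (-(E : ℝ)) * gg y z k ∧
  -∑ t ∈ range z, ∑ A ∈ AX E y z t, (-1 : ℝ) ^ A.card * ∏ p ∈ A, ((k : ℝ) / p)
    ≤ Real.exp (-(E : ℝ)) * gg y z k ∧
  (∀ A ∈ AA E y z, ∏ p ∈ A, p ≤ z ^ (E / 32)) ∧
  ∀ t < z, ∀ A ∈ AX E y z t, ∏ p ∈ A, p ≤ z ^ (E / 32)

/-- PACKET TL (counting; may assume BH, BM, Size).  Third part as in `Pool/Agent/Helper8/GM/TL.lean`.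
`D = ∏ d i`, `k = #B`.  For `A ⊆ pr y z`: `#{n ∈ NI : d i ∣ n + i, A ⊆ hit y z B n} = XI/D ∏_{p ∈ A} k/p`
with an error at most `k^#A` (for every `f : A → B` one class modulo `Q D ∏A`; the classes `-i`, `i ∈ B`,
are different modulo `p > y`; `XI/(D ∏A) = (v-u)/(Q D ∏A)`; for a class the error is at most `1`).
First claim: `[hit = ∅] = ∏ Ut - (something between 0 and EF)` (BH), expand both (BH), BM gives the main
terms.  The number of the sets `A` is at most `z^(E/32)` (the products `∏A` are different), `k ≤ p`, so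
all the errors `k^#A` together are at most `z^(2(E/32))`, while `XI/D · gg ≥ x^(1/2) (log x)^(-2k)..`:
`QQ x ≤ 4^(log x/20)`, `D ≤ z^(E/4)`, `gg y z k ≥ exp(-2 k ∑ 1/p) ≥ (log x)^(-4k)`, `k ≤ √E`
(see Size). -/
def StmtTL : Prop := ∃ c : ℝ, 0 < c ∧ ∃ E0 : ℕ, ∀ E z x y : ℕ, E0 ≤ E → Su E z x y →
  ∀ u v Q b : ℕ, In x u v Q b → ∀ B : Finset ℕ, B ⊆ Icc 1 y → B.card ^ 2 ≤ E →
  ∀ d : ℕ → ℕ, (∀ i ∈ B, Sf z (d i)) → ∏ i ∈ B, d i ≤ z ^ (E / 4) →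
  ((∀ i ∈ B, ∀ j ∈ B, i ≠ j → Nat.Coprime (d i) (d j)) →
    |(((NI u v Q b).filter (fun n => ∀ i ∈ B, d i ∣ n + i ∧ Rg y z (n + i))).card : ℝ)
      - XI u v Q * (gg y z B.card * ∏ i ∈ B, (1 / (d i : ℝ)))|
      ≤ Real.exp (-(c * E)) * (XI u v Q * (gg y z B.card * ∏ i ∈ B, (1 / (d i : ℝ)))) ∧
    ∑ n ∈ (NI u v Q b).filter (fun n => ∀ i ∈ B, d i ∣ n + i), EF E y z (hit y z B n)
      ≤ Real.exp (-(c * E)) * (XI u v Q * (gg y z B.card * ∏ i ∈ B, (1 / (d i : ℝ)))))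
  ∧ (¬ (∀ i ∈ B, ∀ j ∈ B, i ≠ j → Nat.Coprime (d i) (d j)) →
    ((NI u v Q b).filter (fun n => ∀ i ∈ B, d i ∣ n + i ∧ Rg y z (n + i))).card = 0)

/-! ## Part II: primes in progressions -/

/-- PACKET TE (may assume `CG.StmtRB`, Size).  As `Pool/Agent/Helper88/CG/TE.lean`, only the last
estimate changes: with `w = log z`: `log x ≤ 2 w²`, `E ≤ w`, `L ≤ √w`, so
`(log x)^(A+1) exp(C L log(2 + log x)) (2/z + x^(-1/50)) ≤ exp(-w/2)`. -/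
def StmtTE : Prop := ∃ E0 : ℕ, ∀ E z x y : ℕ, E0 ≤ E → Su E z x y →
  ∀ k L : ℕ, 1 ≤ k → (∀ p : ℕ, p.Prime → p ∣ k → p ≤ z) → L ^ 2 ≤ E →
  (k * z ^ (2 * (E / 16))) ^ 4 ≤ x →
  ∀ a : ℕ → ℕ, (∀ D ∈ SS z (z ^ (2 * (E / 16)) + 1), Nat.Coprime (a D) (k * D)) →
  ∑ D ∈ SS z (z ^ (2 * (E / 16)) + 1), (L : ℝ) ^ D.primeFactors.card *
      |th x (k * D) (a D) - th x k (a D) / (Nat.totient D : ℝ)|
    ≤ x / k / √(z : ℝ)

/-- PACKET EB (the conditions given by `d` reduced to progressions; may assume BH, BM, TL, Size).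
As `Pool/Agent/Helper54/CG/EB.lean`, with the Brun-Hooley sieve instead of Bonferroni.
`B = {i : d i ≠ 0}`, `D = ∏ max 1 (d i)`.  If `pw x (n + j) ≠ 0`, then `n + j` is a prime `> z`, so
`hit y z B n = hit y z (B ∪ {j}) n`.  Replace `[hit y z B n = ∅]` in `CN d` by
`∏ Ut (hit y z B n) = ∑_{A ∈ AA, A ⊆ hit} (-1)^#A` (BH); the error is at most
`∑_{n : d i ∣ n + i} EF (hit y z (B ∪ {j}) n)`, for which see TL (with `d j = 1`); the same for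
`CN (sg d)` (with all `d i = 1`).  For given `A` and `f : A → B` the conditions `n ≡ b (Q)`,
`p ∣ n + f p`, `d i ∣ n + i` mean that `n + j` is in a class modulo `Q (∏ A) D`, prime to the modulus if
`gcd(b + j, Q) = 1` (otherwise both `CN` are zero), and `pw x (n + j) ≠ 0` only for `x/16 < n + j < x`.
For each `A` take the worst `f`. -/
def StmtEB : Prop := ∃ c : ℝ, 0 < c ∧ ∃ E0 : ℕ, ∀ E z x y : ℕ, E0 ≤ E → Su E z x y →
  ∀ b : ℕ, b < QQ x → ∀ j ∈ Icc 1 y, ∀ P : Finset ℕ, P ⊆ Icc 1 y → j ∉ P → ∀ d : P → ℕ,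
  (∀ i, d i = 0 ∨ Sf z (d i)) →
  (∀ i i', i ≠ i' → d i ≠ 0 → d i' ≠ 0 → Nat.Coprime (d i) (d i')) →
  ∏ i, max 1 (d i) ≤ z ^ (2 * (E / 16)) → (nz d + 1) ^ 2 ≤ E →
  ∃ a : Finset ℕ → ℕ,
    (∀ A ∈ AA E y z, Nat.Coprime (a A) (QQ x * (∏ p ∈ A, p) * ∏ i, max 1 (d i))) ∧
    |CN x y z j (NI (x / 32) x (QQ x) b) d
        - CN x y z j (NI (x / 32) x (QQ x) b) (fun i => sg (d i)) /
          (Nat.totient (∏ i, max 1 (d i)) : ℝ)|
      ≤ ∑ A ∈ AA E y z, (nz d : ℝ) ^ A.card *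
          |th x (QQ x * (∏ p ∈ A, p) * ∏ i, max 1 (d i)) (a A)
            - th x (QQ x * ∏ p ∈ A, p) (a A) / (Nat.totient (∏ i, max 1 (d i)) : ℝ)|
        + Real.exp (-(c * E)) * (XI (x / 32) x (QQ x) * gg y z (nz d + 1) /
            (Nat.totient (∏ i, max 1 (d i)) : ℝ))

/-- PACKET ER (the error term of `CG.StmtWT`; may assume EB, TE, BM, Size).  As
`Pool/Agent/Helper53/CG/ER*.lean`.  Everything except the last term of EB is at most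
`exp(C K log y) (log x)^C z^(-1/2) XI`: the `d` which are not pairwise coprime (`CN d = 0`,
`CN (sg d) ≤ 2 XI`, the sum of the weights over `∏ d_i` has a factor `1/z`), the replacement of
`∏ 1/d_i` by `1/φ(D)`, and the first term of EB, by TE with `k = Q ∏A` (`∏A ≤ z^(E/32)` by BM),
`L = 3K..`, `∑_{A ∈ AA} K^#A/∏A ≤ exp(K ∑ 1/p)`; and `y^K ≤ exp(2 K log log x) ≤ z^(1/100)` because
`K ≤ E^(1/3) ≤ (log z)^(1/3)`, `log x ≤ 2 (log z)²`; `om ≥ c/log z`.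
The last term of EB: for the supports of size `k`: `#P^k/k! · gg (k+1) ≤ om (#P om)^k/k!`
(`gg y z k ≤ om^k`), and the sum over the labels is at most `(C E)^(3k)` (`PP.StmtMA`); altogether
`om exp(C K log E) exp(-cE) XI`. -/
def StmtER : Prop := ∀ C : ℝ, 1 ≤ C → ∃ c : ℝ, 0 < c ∧ ∃ E0 : ℕ, ∀ E z x y : ℕ, E0 ≤ E →
  Su E z x y → ∀ b : ℕ, b < QQ x → ∀ K : ℕ, K ^ 3 ≤ E → ∀ P : Finset ℕ, P ⊆ Icc 1 y →
  (P.card : ℝ) * om y z ≤ (E : ℝ) ^ 2 → ∀ j ∈ Icc 1 y, j ∉ P →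
  ∑ d ∈ (DS z (z ^ (2 * (E / 16))) K : Finset (P → ℕ)),
      (∏ i, (if d i = 0 then 1 else 3 * C ^ 2 * 3 ^ (d i).primeFactors.card)) *
      |CN x y z j (NI (x / 32) x (QQ x) b) d
        - CN x y z j (NI (x / 32) x (QQ x) b) (fun i => sg (d i)) *
          ∏ i, (if d i = 0 then 1 else 1 / (d i : ℝ))|
    ≤ Real.exp (-(c * E)) * (om y z * XI (x / 32) x (QQ x))

/-! ## Part III: second moments -/

/-- PACKET TG (second moment; may assume TL, Size).  As `Pool/Agent/Helper19/CG/TG.lean`, with TL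
instead of `GM.StmtTL` (here `gB = gg`, `gg y z k ≤ om^k`).  New: (1) the labels at `F` go up to `z^w`
with `E/32 ≤ w ≤ E/16`; (2) at `G` the label may be `1` or in `LA`; (3) all supports contain `F ∪ G`, so
`sumBB` is used with `F ∪ G` in place of `∅`, which gives the factor `om^(#F + #G)`. -/
def StmtTG : Prop := ∃ c : ℝ, 0 < c ∧ ∃ E0 : ℕ, ∀ E z x y : ℕ, E0 ≤ E → Su E z x y →
  ∀ u v Q b : ℕ, In x u v Q b → ∀ m q K w : ℕ, 1 ≤ m → q * m ≤ E / 16 → 1 ≤ VV z m (q * m) →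
  K ^ 3 ≤ E → E / 32 ≤ w → w ≤ E / 16 → ∀ P : Finset ℕ, P ⊆ Icc 1 y →
  (P.card : ℝ) * om y z ≤ (E : ℝ) ^ 2 →
  ∀ (T : Finset (P → ℕ)) (a : (P → ℕ) → ℝ) (F G : Finset P), F.card ≤ 2 → G.card ≤ 2 →
  Disjoint F G →
  (∀ r ∈ T, ∀ i, i ∉ F → i ∉ G → (r i = 0 ∨ r i ∈ LA z m (q * m))) →
  (∀ r ∈ T, ∀ i ∈ F, r i ∈ SS z (z ^ w)) →
  (∀ r ∈ T, ∀ i ∈ G, r i = 1 ∨ r i ∈ LA z m (q * m)) →
  (∀ r ∈ T, nz r ≤ K) →
  (∀ r ∈ T, ∏ i, max 1 (r i) ≤ z ^ (2 * (E / 16))) →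
  (∀ r ∈ T, |a r| ≤ ∏ i, (if i ∈ F then 1 / (VM w z * (Nat.totient (r i) : ℝ)) else
    if i ∈ G then (if r i = 1 then 1 else ab m q z (r i)) else
    if r i = 0 then 1 else ab m q z (r i))) →
  |∑ n ∈ NI u v Q b, (∑ r ∈ T, a r * ∏ i, vv y z (r i) (n + (i : ℕ))) ^ 2
      - XI u v Q * ∑ r ∈ T, a r ^ 2 *
        (gg y z (nz r) * ∏ i, (if r i = 0 then 1 else (Nat.totient (r i) : ℝ)))|
    ≤ Real.exp (-(c * E)) * om y z ^ (F.card + G.card) * XI u v Q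

/-- PACKET S1 (mean square; may assume TG, Size).  `TG` with `F = G = ∅`, `T = TB`, as
`Pool/Agent/Helper32/GM/S1.lean` (or the RR version); here `P ⊆ Icc 1 y`. -/
def StmtS1 : Prop := ∃ c : ℝ, 0 < c ∧ ∃ E0 : ℕ, ∀ E z x y : ℕ, E0 ≤ E → Su E z x y →
  ∀ u v Q b : ℕ, In x u v Q b → ∀ m q : ℕ, 1 ≤ m → q * m ≤ E / 16 → 1 ≤ VV z m (q * m) →
  (E / 16 / m + 1) ^ 3 ≤ E →
  ∀ P : Finset ℕ, P ⊆ Icc 1 y → (P.card : ℝ) * om y z ≤ (E : ℝ) ^ 2 →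
    1 ≤ DB m q (E / 16) z y P ∧
    |∑ n ∈ NI u v Q b, WB m q (E / 16) z y P n ^ 2 - XI u v Q * DB m q (E / 16) z y P|
      ≤ Real.exp (-(c * E)) * XI u v Q

/-- PACKET GT (the mean square of `GB`; may assume TG, Size).  `TG` with `F = {h}`, `w = E/16`,
`G = ∅`, as `Pool/Agent/Helper6/GM/GT.lean`. -/
def StmtGT : Prop := ∃ c : ℝ, 0 < c ∧ ∃ E0 : ℕ, ∀ E z x y : ℕ, E0 ≤ E → Su E z x y →
  ∀ u v Q b : ℕ, In x u v Q b → ∀ m q : ℕ, 1 ≤ m → q * m ≤ E / 16 → 1 ≤ VV z m (q * m) →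
  (E / 16 / m + 1) ^ 3 ≤ E →
  ∀ P : Finset ℕ, P ⊆ Icc 1 y → (P.card : ℝ) * om y z ≤ (E : ℝ) ^ 2 → ∀ h : P,
    ∑ n ∈ NI u v Q b, GB m q (E / 16) z y P h n ^ 2 ≤ XI u v Q * om y z *
      (∑ r ∈ (TB m q (E / 16) z P).filter (fun r => E / 16 < cost z r + q * m), wb m q y z r
        + Real.exp (-(c * E)))

/-- PACKET KQ (the primes at the points of `P` are killed; may assume GT, Size, and the existing
`RR.StmtPW`, `RR.StmtRA`, `CG.StmtVP`).  As `Pool/Agent/Helper88/CG/KQ.lean`. -/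
def StmtKQ : Prop := ∃ c : ℝ, 0 < c ∧ ∀ η : ℝ, 0 < η → ∃ E0 : ℕ, ∀ E z x y : ℕ, E0 ≤ E →
  Su E z x y → ∀ b : ℕ, b < QQ x → ∀ P : Finset ℕ, P ⊆ Icc 1 y →
  (P.card : ℝ) * om y z ≤ c * (E * Real.log E) →
  ∑ n ∈ NI (x / 32) x (QQ x) b, Wt E z y P n ^ 2 * ((P.filter (fun h => (n + h).Prime)).card : ℝ)
    ≤ η * (XI (x / 32) x (QQ x) * Dt E z y P)

/-- PACKET BT (upper bound for the number of primes; may assume TG, Size).  As
`Pool/Agent/Helper48/CG/BT.lean`: `TG` with `P = F = {j}`, `w = E/32`; the error is now relative. -/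
def StmtBT : Prop := ∃ C : ℝ, 0 < C ∧ ∃ E0 : ℕ, ∀ E z x y : ℕ, E0 ≤ E → Su E z x y →
  ∀ b : ℕ, b < QQ x → ∀ j ∈ Icc 1 y,
  (((NI (x / 32) x (QQ x) b).filter (fun n => (n + j).Prime)).card : ℝ)
    ≤ C * (XI (x / 32) x (QQ x) * (om y z / E))

/-- PACKET CO (the number of rough points is concentrated, also for prime `n + j`; may assume TG, Size).
As `Pool/Agent/Helper40/CG/CO.lean`: `TG` with `F = {j}`, `w = E/32`, `G = {i, i'}`, `{i}` or `∅` (labels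
`1` on `G`).  The errors are `exp(-cE) om^3 #P²`, `exp(-cE) om^2 #P (1 + μ)`, `exp(-cE) om μ²` times `XI`,
all at most `exp(-cE) E^4 om XI`; and `gg (k+1) ≥ om gg k (1 - 4(k+1)/y)`, `y ≥ E²`, `μ ≤ E²`: as before,
`μ² /y` must be at most `C (μ + 1)`: `μ = #P om ≤ y om`, `om ≤ 1`. -/
def StmtCO : Prop := ∃ C : ℝ, 0 < C ∧ ∃ E0 : ℕ, ∀ E z x y : ℕ, E0 ≤ E → Su E z x y →
  ∀ b : ℕ, b < QQ x → ∀ P : Finset ℕ, P ⊆ Icc 1 y → (P.card : ℝ) * om y z ≤ (E : ℝ) ^ 2 / 2 →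
  ∀ j ∈ Icc 1 y, j ∉ P →
  ∑ n ∈ (NI (x / 32) x (QQ x) b).filter (fun n => (n + j).Prime),
      (((P.filter (fun h => Rg y z (n + h))).card : ℝ) - P.card * om y z) ^ 2
    ≤ C * (XI (x / 32) x (QQ x) * (om y z / E)) * (P.card * om y z + 1)

/-- PACKET PB (two primes in the blocks: upper bound; may assume TG, Size and `CG.StmtVP`).  As
`Pool/Agent/Helper72/CG/PB.lean`: `F = {j, j'}`, `w = E/32`; the error `exp(-cE) om^2 XI` is relative. -/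
def StmtPB : Prop := ∃ C : ℝ, 0 < C ∧ ∃ E0 : ℕ, ∀ E z x y : ℕ, E0 ≤ E → Su E z x y →
  ∀ b : ℕ, b < QQ x → ∀ P : Finset ℕ, P ⊆ Icc 1 y → (P.card : ℝ) * om y z ≤ (E : ℝ) ^ 2 / 2 →
  ∀ j ∈ Icc 1 y, ∀ j' ∈ Icc 1 y, j ∉ P → j' ∉ P → j ≠ j' →
  ∑ n ∈ (NI (x / 32) x (QQ x) b).filter (fun n => (n + j).Prime ∧ (n + j').Prime),
      Wt E z y P n ^ 2
    ≤ C * (XI (x / 32) x (QQ x) * Dt E z y P) * (om y z / E) ^ 2

/-- PACKET LB (lower bound for the primes under the weight; may assume ER, CO, Size and the existing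
`CG.StmtWT`, `CG.StmtCM`, `CG.StmtVP`).  As `Pool/Agent/Helper42/CG/LB.lean`; at the end
`exp(-cE) om ≤ η om/E`. -/
def StmtLB : Prop := ∀ η : ℝ, 0 < η → ∃ E0 : ℕ, ∀ E z x y : ℕ, E0 ≤ E → Su E z x y →
  ∀ b : ℕ, b < QQ x → ∀ P : Finset ℕ, P ⊆ Icc 1 y → (P.card : ℝ) * om y z ≤ (E : ℝ) ^ 2 / 2 →
  ∀ j ∈ Icc 1 y, j ∉ P →
  Dt E z y P * ((1 - η) * (∑ n ∈ NI (x / 32) x (QQ x) b, pw x (n + j))
      - η * (XI (x / 32) x (QQ x) * (om y z / E)))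
    ≤ ∑ n ∈ NI (x / 32) x (QQ x) b, pw x (n + j) * Wt E z y P n ^ 2

/-- PACKET RC (the number of rough points under the weight; may assume TG, Size, `CG.StmtVP`).
For `i ∈ P`: `Wt · [n + i rough]` is given by the labels `r' i = 1` if `r i = 0`, `r' = r` otherwise
(`vv y z 0 = 1`, `vv y z 1 m = [Rg y z m]`, and `vv y z r` contains the roughness for `r ≠ 0`): `TG` with
`F = ∅`, `G = {i}`, `K = (E/16)/mE E + 2`.  Main term: `gg (#(supp r ∪ {i}))`, at most `om gg(#supp r)` if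
`r i = 0` (`gg (k+1) ≤ om gg k`: `1 - (k+1)/p ≤ (1 - 1/p) (1 - k/p)`), so the sum over `i` is at most
`XI Dt (#P om + E)`; the errors: `#P exp(-cE) om XI ≤ E² exp(-cE) XI`, `1 ≤ Dt`. -/
def StmtRC : Prop := ∃ C : ℝ, 0 < C ∧ ∃ E0 : ℕ, ∀ E z x y : ℕ, E0 ≤ E → Su E z x y →
  ∀ b : ℕ, b < QQ x → ∀ P : Finset ℕ, P ⊆ Icc 1 y → (P.card : ℝ) * om y z ≤ (E : ℝ) ^ 2 / 2 →
  ∑ n ∈ NI (x / 32) x (QQ x) b,
      Wt E z y P n ^ 2 * ((P.filter (fun h => Rg y z (n + h))).card : ℝ)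
    ≤ C * (XI (x / 32) x (QQ x) * Dt E z y P) * (P.card * om y z + E)

/-- PACKET SU (a bound for the weight at an integer with few rough points; may assume Size and the
existing `RR.StmtCB`).  As `Pool/Agent/Helper5/GM/SU.lean`, but now the number of the rough points is
at most `E³` (instead of `y ≤ exp(2 E^(1/3))`). -/
def StmtSU : Prop := ∃ E0 : ℕ, ∀ E z x y : ℕ, E0 ≤ E → Su E z x y → ∀ m q : ℕ, 1 ≤ m →
  q * m ≤ E / 16 → 1 ≤ VV z m (q * m) → (E / 16 / m + 1) ^ 3 ≤ E →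
  ∀ P : Finset ℕ, P ⊆ Icc 1 y → ∀ n : ℕ, n ≤ x →
    (P.filter (fun h => Rg y z (n + h))).card ≤ E ^ 3 →
    WB m q (E / 16) z y P n ^ 2 ≤ Real.exp ((E : ℝ) ^ 2 / 2)

/-- PACKET A4 (Mertens).  As `Pool/Agent/Helper90/CG/A4.lean`. -/
def StmtA4 : Prop := ∃ C : ℝ, 0 < C ∧ ∃ E0 : ℕ, ∀ E z x y : ℕ, E0 ≤ E → Su E z x y →
  om y z * ((Nat.totient (QQ x) : ℝ) / QQ x) ≤ C * (E / Real.log x)

/-! ## Part IV: the conclusion (helper88) -/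

/-- Many windows; as `Pool/Agent/Helper88/AC/AF.lean`. -/
def StmtAF : Prop := ∃ c C : ℝ, 0 < c ∧ 0 < C ∧ ∀ k : ℕ, 1 ≤ k → ∃ (lam0 : ℝ) (x0 : ℕ), ∀ x : ℕ,
  x0 ≤ x → ∀ lam : ℝ, lam0 ≤ lam → lam ≤ c / (k : ℝ) ^ 2 * Real.log (Real.log x) →
  ∃ M U l : ℕ, lam * Real.log x ≤ U ∧
    ((M * (U + l) : ℕ) : ℝ) ≤ C * (k : ℝ) ^ 2 * lam * Real.log x ∧
    ((M * (U + l) : ℕ) : ℝ) ≤ Real.log x ^ 2 ∧
    x * Real.exp (-Real.exp (C * (k : ℝ) ^ 2 * lam)) ≤ (((Ioc (x / 32) x).filter (fun n =>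
      (∀ h ∈ Icc 1 (M * (U + l)), (∀ a < M, h ∉ blk U l a) → ¬ (n + h).Prime) ∧
      (k : ℝ) + 2 < ∑ a ∈ range M, ((nb n U l a : ℝ) -
        ((k : ℝ) + 2) * ((nb n U l a : ℝ) * ((nb n U l a : ℝ) - 1) / 2)))).card : ℝ)

/-- THE MAIN THEOREM. -/
def StmtUC : Prop := ∃ c C : ℝ, 0 < c ∧ ∀ k : ℕ, 1 ≤ k → ∃ A X : ℝ, ∀ x : ℝ, X ≤ x → ∀ L : ℝ,
  0 ≤ L → L ≤ c / (k : ℝ) ^ 2 * Real.log (Real.log x) →
  x / Real.log x * Real.exp (-(A * Real.exp (C * (k : ℝ) ^ 2 * L)))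
    ≤ ({n : ℕ | (Nat.nth Nat.Prime (n + k) : ℝ) ≤ x ∧ ∀ i < k, L * Real.log x
        ≤ (Nat.nth Nat.Prime (n + i + 1) : ℝ) - Nat.nth Nat.Prime (n + i) - 1}.ncard : ℝ)

end Pool.Agent.Helper88.TU
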