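import Pool.Agent.Helper88.TU.Goals
import Pool.Agent.Helper88.AC.Fin

/-! # TU: the conclusion -/

set_option autoImplicit false

open Finset Filter Topology

open scoped Classical

namespace Pool.Agent.Helper88.TU

open Pool.Agent.Helper88.CG (blk nb)
open Pool.Agent.Helper88.AC (f2')

/-- UNIFORM CHAINS (`StmtUC` together with an upper bound for the length of the chain) -/
def StmtUD : Prop := ∃ c C : ℝ, 0 < c ∧ ∀ k : ℕ, 1 ≤ k → ∃ A X : ℝ, ∀ x : ℝ, X ≤ x → ∀ L : ℝ,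
  0 ≤ L → L ≤ c / (k : ℝ) ^ 2 * Real.log (Real.log x) →
  x / Real.log x * Real.exp (-(A * Real.exp (C * (k : ℝ) ^ 2 * L)))
    ≤ ({n : ℕ | (Nat.nth Nat.Prime (n + k) : ℝ) ≤ x ∧
        (Nat.nth Nat.Prime (n + k) : ℝ) - Nat.nth Nat.Prime n
          ≤ (A + C * (k : ℝ) ^ 2 * L) * Real.log x ∧
        ∀ i < k, L * Real.log x
          ≤ (Nat.nth Nat.Prime (n + i + 1) : ℝ) - Nat.nth Nat.Prime (n + i) - 1}.ncard : ℝ)

/-- counting the chains -/
theorem count2 (N : Finset ℕ) (y k U x : ℕ) (hx : ∀ n ∈ N, n ≤ x)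
    (h : ∀ n ∈ N, ∃ s : ℕ, n < Nat.nth Nat.Prime s ∧ Nat.nth Nat.Prime (s + k) ≤ n + y ∧
      ∀ i < k, Nat.nth Nat.Prime (s + i) + U < Nat.nth Nat.Prime (s + i + 1)) :
    ∃ S : Finset ℕ, N.card ≤ y * S.card ∧ ∀ s ∈ S, Nat.nth Nat.Prime (s + k) ≤ x + y ∧
      Nat.nth Nat.Prime (s + k) ≤ Nat.nth Nat.Prime s + y ∧
      ∀ i < k, Nat.nth Nat.Prime (s + i) + U < Nat.nth Nat.Prime (s + i + 1) := by
  choose! f h1 h2 h3 using h
  refine ⟨N.image f, ?_, ?_⟩
  · refine card_le_mul_card_image N y ?_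
    intro s hs
    have hmono : StrictMono (Nat.nth Nat.Prime) := Nat.nth_strictMono Nat.infinite_setOf_prime
    have h4 : N.filter (fun n => f n = s) ⊆
        Ico (Nat.nth Nat.Prime s - y) (Nat.nth Nat.Prime s) := by
      intro n hn
      rw [mem_filter] at hn
      obtain ⟨hn1, hn2⟩ := hn
      have h5 := h1 n hn1
      have h6 := h2 n hn1
      rw [hn2] at h5 h6
      have h7 : Nat.nth Nat.Prime s ≤ Nat.nth Nat.Prime (s + k) := hmono.monotone (by omega)
      rw [mem_Ico]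
      omega
    refine (card_le_card h4).trans ?_
    rw [Nat.card_Ico]
    omega
  · intro s hs
    obtain ⟨n, hn, rfl⟩ := mem_image.1 hs
    have h5 := h1 n hn
    have h6 := h2 n hn
    exact ⟨h6.trans (Nat.add_le_add_right (hx n hn) y), by omega, h3 n hn⟩

theorem fin (h : StmtAF) : StmtUD := by
  obtain ⟨c, C, hc, hC, h⟩ := h
  refine ⟨c / 8, 2 * C, by positivity, fun k hk => ?_⟩
  obtain ⟨lam0, x0, hx0⟩ := h k hk
  have hk0 : (1 : ℝ) ≤ k := by exact_mod_cast hk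
  have hk2 : (1 : ℝ) ≤ (k : ℝ) ^ 2 := one_le_pow₀ hk0
  obtain ⟨l1, hl1⟩ : ∃ l1 : ℝ, l1 = max lam0 1 := ⟨_, rfl⟩
  have hl1a : lam0 ≤ l1 := hl1 ▸ le_max_left _ _
  have hl1b : 1 ≤ l1 := hl1 ▸ le_max_right _ _
  have ev1 : ∀ᶠ x : ℝ in atTop, ‖Real.log x ^ 2‖ ≤ 1 / 2 * ‖id x‖ :=
    (Real.isLittleO_pow_log_id_atTop (n := 2)).bound (by norm_num)
  have ev2 : ∀ᶠ x : ℝ in atTop, 4 ≤ Real.log x := Real.tendsto_log_atTop.eventually_ge_atTop 4
  have ev3 : ∀ᶠ x : ℝ in atTop, 4 * l1 / (c / (k : ℝ) ^ 2) ≤ Real.log (Real.log x) :=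
    (Real.tendsto_log_atTop.comp Real.tendsto_log_atTop).eventually_ge_atTop _
  obtain ⟨X, hX⟩ := eventually_atTop.mp (ev1.and (ev2.and ev3))
  obtain ⟨A, hA⟩ : ∃ A : ℝ, A = 3 * Real.exp (C * (k : ℝ) ^ 2 * l1) := ⟨_, rfl⟩
  refine ⟨A, max X (max 16 (2 * x0 + 2)),
    fun x hx L hL1 hL2 => ?_⟩
  obtain ⟨e1, e2, e3⟩ := hX x (le_trans (le_max_left _ _) hx)
  have hx16 : 16 ≤ x := le_trans (le_trans (le_max_left _ _) (le_max_right _ _)) hx
  have hx0' : 2 * (x0 : ℝ) + 2 ≤ x := le_trans (le_trans (le_max_right _ _) (le_max_right _ _)) hx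
  rw [id, Real.norm_eq_abs, Real.norm_eq_abs, abs_of_nonneg (by positivity : 0 ≤ Real.log x ^ 2),
    abs_of_nonneg (by linarith only [hx16] : 0 ≤ x)] at e1
  have hck : 0 < c / (k : ℝ) ^ 2 := by positivity
  have e3' : 4 * l1 ≤ c / (k : ℝ) ^ 2 * Real.log (Real.log x) := by
    rw [div_le_iff₀ hck] at e3
    linarith only [e3]
  set y : ℕ := ⌊x / 2⌋₊ with hy
  have y1 : (y : ℝ) ≤ x / 2 := Nat.floor_le (by linarith only [hx16])
  have y2 : x / 2 < y + 1 := Nat.lt_floor_add_one _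
  have y3 : x / 4 ≤ y := by linarith only [hx16, y2]
  have y4 : x0 ≤ y := by
    have : (x0 : ℝ) ≤ y := by linarith only [hx0', y2]
    exact_mod_cast this
  have ly1 : Real.log (x / 4) ≤ Real.log y := Real.log_le_log (by linarith only [hx16]) y3
  have ly2 : Real.log y ≤ Real.log x := Real.log_le_log (by linarith only [hx16, y2]) (by linarith only [hx16, y1])
  have ly3 : Real.log x / 2 ≤ Real.log y := (Pool.Agent.Helper25.CG.quarter_log hx16).trans ly1
  have ly4 : Real.log (Real.log x) / 2 ≤ Real.log (Real.log y) :=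
    (Pool.Agent.Helper25.CG.half_log e2).trans (Real.log_le_log (by linarith only [e2]) ly3)
  obtain ⟨lam, hlam⟩ : ∃ lam : ℝ, lam = 2 * L + l1 := ⟨_, rfl⟩
  have hlam1 : 1 ≤ lam := by linarith only [hl1b, hL1, hlam]
  obtain ⟨M, U, l, a1, a0, a2, a3⟩ := hx0 y y4 lam (by linarith only [hl1a, hL1, hlam]) (by
    have h1 : c / (k : ℝ) ^ 2 * (Real.log (Real.log x) / 2) ≤
        c / (k : ℝ) ^ 2 * Real.log (Real.log y) := mul_le_mul_of_nonneg_left ly4 hck.le
    have h2 : c / 8 / (k : ℝ) ^ 2 * Real.log (Real.log x) =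
        c / (k : ℝ) ^ 2 * Real.log (Real.log x) / 8 := by ring
    linarith only [hL2, e3', hlam, h1, h2])
  obtain ⟨W, hW⟩ : ∃ W : ℕ, W = M * (U + l) := ⟨_, rfl⟩
  obtain ⟨Nn, hNn⟩ : ∃ Nn : Finset ℕ, Nn = (Ioc (y / 32) y).filter (fun n =>
      (∀ h ∈ Icc 1 (M * (U + l)), (∀ a < M, h ∉ blk U l a) → ¬ (n + h).Prime) ∧
      (k : ℝ) + 2 < ∑ a ∈ range M, ((nb n U l a : ℝ) -
        ((k : ℝ) + 2) * ((nb n U l a : ℝ) * ((nb n U l a : ℝ) - 1) / 2))) := ⟨_, rfl⟩
  rw [← hNn] at a3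
  obtain ⟨S, hS1, hS2⟩ := count2 Nn W k U y
    (fun n hn => by
      rw [hNn, mem_filter, mem_Ioc] at hn
      exact hn.1.2)
    (fun n hn => by
      rw [hNn, mem_filter] at hn
      rw [hW]
      exact f2' k n M U l hk hn.2.1 hn.2.2)
  have hfin : {n : ℕ | (Nat.nth Nat.Prime (n + k) : ℝ) ≤ x ∧
        (Nat.nth Nat.Prime (n + k) : ℝ) - Nat.nth Nat.Prime n
          ≤ (A + 2 * C * (k : ℝ) ^ 2 * L) * Real.log x ∧
        ∀ i < k, L * Real.log x
          ≤ (Nat.nth Nat.Prime (n + i + 1) : ℝ) - Nat.nth Nat.Prime (n + i) - 1}.Finite := by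
    refine (Set.finite_le_nat ⌊x⌋₊).subset ?_
    rintro n ⟨hn, -⟩
    have h1 : n ≤ Nat.nth Nat.Prime (n + k) :=
      (Nat.le_add_right n k).trans
        ((Nat.nth_strictMono Nat.infinite_setOf_prime).id_le (n + k))
    exact h1.trans (Nat.le_floor hn)
  have hWx : (W : ℝ) ≤ Real.log x ^ 2 := by
    rw [hW]
    refine a2.trans (pow_le_pow_left₀ ?_ ly2 2)
    linarith only [e2, ly3]
  have hsub : (S : Set ℕ) ⊆ {n : ℕ | (Nat.nth Nat.Prime (n + k) : ℝ) ≤ x ∧
        (Nat.nth Nat.Prime (n + k) : ℝ) - Nat.nth Nat.Prime n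
          ≤ (A + 2 * C * (k : ℝ) ^ 2 * L) * Real.log x ∧
        ∀ i < k, L * Real.log x
          ≤ (Nat.nth Nat.Prime (n + i + 1) : ℝ) - Nat.nth Nat.Prime (n + i) - 1} := by
    intro s hs
    obtain ⟨b1, b3, b2⟩ := hS2 s hs
    refine ⟨?_, ?_, fun i hi => ?_⟩
    · have c1 : (Nat.nth Nat.Prime (s + k) : ℝ) ≤ y + W := by exact_mod_cast b1
      linarith only [e1, y1, hWx, c1]
    · have c1 : (Nat.nth Nat.Prime (s + k) : ℝ) ≤ Nat.nth Nat.Prime s + W := by exact_mod_cast b3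
      have c2 : (W : ℝ) ≤ C * (k : ℝ) ^ 2 * lam * Real.log x := by
        rw [hW]
        refine a0.trans ?_
        exact mul_le_mul_of_nonneg_left ly2 (by positivity)
      have c3 : C * (k : ℝ) ^ 2 * l1 ≤ A := by
        have c4 := Real.add_one_le_exp (C * (k : ℝ) ^ 2 * l1)
        have c5 : 0 ≤ C * (k : ℝ) ^ 2 * l1 := by positivity
        rw [hA]
        linarith only [c4, c5]
      have c4 : C * (k : ℝ) ^ 2 * lam * Real.log x =
          (C * (k : ℝ) ^ 2 * l1 + 2 * C * (k : ℝ) ^ 2 * L) * Real.log x := by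
        rw [hlam]
        ring
      have c5 : (C * (k : ℝ) ^ 2 * l1 + 2 * C * (k : ℝ) ^ 2 * L) * Real.log x ≤
          (A + 2 * C * (k : ℝ) ^ 2 * L) * Real.log x :=
        mul_le_mul_of_nonneg_right (by linarith only [c3]) (by linarith only [e2])
      linarith only [c1, c2, c4, c5]
    · have c1 := b2 i hi
      have c2 : (Nat.nth Nat.Prime (s + i) : ℝ) + U + 1 ≤ Nat.nth Nat.Prime (s + i + 1) := by
        exact_mod_cast c1
      have c3 : L * Real.log x ≤ lam * Real.log y := by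
        have c4 : L * Real.log x ≤ 2 * L * Real.log y := by nlinarith only [hL1, ly3]
        have c5 : 0 ≤ l1 * Real.log y := by
          have : 0 ≤ Real.log y := by linarith only [e2, ly3]
          positivity
        rw [hlam]
        nlinarith only [c4, c5]
      linarith only [a1, c2, c3]
  have hcard : (S.card : ℝ) ≤ ({n : ℕ | (Nat.nth Nat.Prime (n + k) : ℝ) ≤ x ∧
        (Nat.nth Nat.Prime (n + k) : ℝ) - Nat.nth Nat.Prime n
          ≤ (A + 2 * C * (k : ℝ) ^ 2 * L) * Real.log x ∧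
        ∀ i < k, L * Real.log x
          ≤ (Nat.nth Nat.Prime (n + i + 1) : ℝ) - Nat.nth Nat.Prime (n + i) - 1}.ncard : ℝ) := by
    have := Set.ncard_le_ncard hsub hfin
    rw [Set.ncard_coe_finset] at this
    exact_mod_cast this
  refine le_trans ?_ hcard
  obtain ⟨t, ht⟩ : ∃ t : ℝ, t = C * (k : ℝ) ^ 2 * lam := ⟨_, rfl⟩
  have ht0 : 0 < t := by rw [ht]; positivity
  have hlx0 : 0 < Real.log x := by linarith only [e2]
  have hWt : (W : ℝ) ≤ t * Real.log x := by
    rw [hW, ht]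
    refine a0.trans ?_
    exact mul_le_mul_of_nonneg_left ly2 (by positivity)
  rw [← ht] at a3
  have hS1' : (y : ℝ) * Real.exp (-Real.exp t) ≤ t * Real.log x * S.card := by
    refine a3.trans ?_
    have h1 := (Nat.cast_le (α := ℝ)).2 hS1
    refine h1.trans ?_
    push_cast
    exact mul_le_mul_of_nonneg_right hWt (Nat.cast_nonneg _)
  -- the final comparison
  have hexp : A * Real.exp (2 * C * (k : ℝ) ^ 2 * L) =
      3 * Real.exp t := by
    rw [hA, mul_assoc, ← Real.exp_add, ht, hlam]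
    ring_nf
  rw [hexp]
  have hG : 4 * t * Real.exp (-(3 * Real.exp t)) ≤ Real.exp (-Real.exp t) := by
    have g1 : 4 * t ≤ Real.exp (2 * Real.exp t) := by
      have g2 : t + 1 ≤ Real.exp t := Real.add_one_le_exp t
      have g5 : 4 * t ≤ Real.exp (t + 2) := by
        have g6 : Real.exp (t + 2) = Real.exp t * (Real.exp 1 * Real.exp 1) := by
          rw [← Real.exp_add, ← Real.exp_add]
          norm_num
        have g7 := Real.exp_one_gt_d9
        have g8 : 4 ≤ Real.exp 1 * Real.exp 1 := by nlinarith only [g7]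
        rw [g6]
        nlinarith only [g8, g2, ht0]
      exact g5.trans (Real.exp_le_exp.2 (by linarith only [ht0, g2]))
    calc 4 * t * Real.exp (-(3 * Real.exp t))
        ≤ Real.exp (2 * Real.exp t) * Real.exp (-(3 * Real.exp t)) :=
          mul_le_mul_of_nonneg_right g1 (Real.exp_pos _).le
      _ = Real.exp (-Real.exp t) := by
          rw [← Real.exp_add]
          ring_nf
  have hF : (t * Real.log x) * (x / Real.log x * Real.exp (-(3 * Real.exp t))) ≤
      (t * Real.log x) * S.card := by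
    refine le_trans ?_ hS1'
    calc (t * Real.log x) * (x / Real.log x * Real.exp (-(3 * Real.exp t)))
        = x / 4 * (4 * t * Real.exp (-(3 * Real.exp t))) := by
          field_simp
      _ ≤ x / 4 * Real.exp (-Real.exp t) :=
          mul_le_mul_of_nonneg_left hG (by linarith only [hx16])
      _ ≤ y * Real.exp (-Real.exp t) :=
          mul_le_mul_of_nonneg_right y3 (Real.exp_pos _).le
  exact le_of_mul_le_mul_left hF (by positivity)

end Pool.Agent.Helper88.TU
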