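import Pool.Agent.Helper88.TU.Size
import Pool.Agent.Helper88.AC.Sizes

/-! # TU: preparations for the many windows -/

set_option autoImplicit false

open Finset Filter Topology

open scoped Classical

namespace Pool.Agent.Helper88.TU

open Pool.Agent.Helper88.AC (hlogN hllN)
open Pool.Agent.Helper88.CG Pool.Agent.Helper87.CG

/-- many integers in a given class, if the weight is only bounded at the integers with `rp ≤ T` -/
theorem key3 {N : Finset ℕ} {W2 rp : ℕ → ℝ} {M U l : ℕ} {P : Finset ℕ} {X D K B e T : ℝ}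
    (hW : ∀ n ∈ N, 0 ≤ W2 n) (hB0 : 0 ≤ B) (hr : ∀ n ∈ N, 0 ≤ rp n)
    (hB : ∀ n ∈ N, rp n ≤ T → W2 n ≤ B) (hT : 0 < T)
    (hX : 0 < X) (hD : 1 ≤ D) (hK : 2 ≤ K)
    (he : 1 ≤ e)
    (hR : M * ∑ n ∈ N, W2 n * rp n ≤ T * ((X * D) / 2))
    (h : (X * D) * e ≤ ∑ n ∈ N, W2 n * (∑ a ∈ range M, ((nb n U l a : ℝ) -
        K * ((nb n U l a : ℝ) * ((nb n U l a : ℝ) - 1) / 2)) - K -
      M * ((P.filter (fun h => (n + h).Prime)).card : ℝ))) :
    X ≤ 2 * (M * B * ((N.filter (fun n => 0 < ∑ a ∈ range M, ((nb n U l a : ℝ) -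
        K * ((nb n U l a : ℝ) * ((nb n U l a : ℝ) - 1) / 2)) - K -
      M * ((P.filter (fun h => (n + h).Prime)).card : ℝ))).card : ℝ)) := by
  have hM : (0 : ℝ) ≤ M := Nat.cast_nonneg M
  have h2 : X * 1 ≤ X * D := mul_le_mul_of_nonneg_left hD hX.le
  have h3 : (X * D) * 1 ≤ (X * D) * e := mul_le_mul_of_nonneg_left he (by positivity)
  have h4 : ∀ n ∈ N, W2 n * (∑ a ∈ range M, ((nb n U l a : ℝ) -
        K * ((nb n U l a : ℝ) * ((nb n U l a : ℝ) - 1) / 2)) - K -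
      M * ((P.filter (fun h => (n + h).Prime)).card : ℝ)) ≤
      (if 0 < ∑ a ∈ range M, ((nb n U l a : ℝ) -
        K * ((nb n U l a : ℝ) * ((nb n U l a : ℝ) - 1) / 2)) - K -
      M * ((P.filter (fun h => (n + h).Prime)).card : ℝ) then M * B else 0) +
      M * (W2 n * rp n) / T := by
    intro n hn
    have hle : ∑ a ∈ range M, ((nb n U l a : ℝ) -
        K * ((nb n U l a : ℝ) * ((nb n U l a : ℝ) - 1) / 2)) ≤ M := by
      calc _ ≤ ∑ _a ∈ range M, (1 : ℝ) := sum_le_sum fun a _ => block_le_one _ hK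
        _ = M := by rw [sum_const, card_range, nsmul_eq_mul, mul_one]
    have hw := hW n hn
    have hrn := hr n hn
    have hex : 0 ≤ M * (W2 n * rp n) / T := by positivity
    split_ifs with h5
    · have h6 : 0 ≤ (M : ℝ) * (((P.filter (fun h => (n + h).Prime)).card : ℕ) : ℝ) := by
        positivity
      have h7 : ∑ a ∈ range M, ((nb n U l a : ℝ) -
        K * ((nb n U l a : ℝ) * ((nb n U l a : ℝ) - 1) / 2)) - K -
        M * ((P.filter (fun h => (n + h).Prime)).card : ℝ) ≤ M := by linarith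
      have h8 : W2 n * (∑ a ∈ range M, ((nb n U l a : ℝ) -
        K * ((nb n U l a : ℝ) * ((nb n U l a : ℝ) - 1) / 2)) - K -
        M * ((P.filter (fun h => (n + h).Prime)).card : ℝ)) ≤ W2 n * M :=
        mul_le_mul_of_nonneg_left h7 hw
      rcases le_or_gt (rp n) T with h9 | h9
      · have h10 : W2 n * M ≤ B * M := mul_le_mul_of_nonneg_right (hB n hn h9) hM
        linarith
      · have h10 : W2 n * M ≤ M * (W2 n * rp n) / T := by
          rw [le_div_iff₀ hT]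
          have h11 : W2 n * M * T ≤ W2 n * M * rp n :=
            mul_le_mul_of_nonneg_left h9.le (by positivity)
          linarith
        have h12 : 0 ≤ M * B := by positivity
        linarith
    · rw [zero_add]
      exact (mul_nonpos_of_nonneg_of_nonpos hw (not_lt.1 h5)).trans hex
  have h5 := sum_le_sum h4
  rw [sum_add_distrib, ← sum_filter, sum_const, nsmul_eq_mul, ← sum_div, ← mul_sum] at h5
  have h6 : (M * ∑ n ∈ N, W2 n * rp n) / T ≤ (X * D) / 2 := by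
    rw [div_le_iff₀ hT]
    linarith
  linarith

/-- the choice of `E` and `z` -/
theorem choose3 {D : ℝ} (hD : 3 ≤ D) : ∃ x0 : ℕ, ∀ x : ℕ, x0 ≤ x → ∀ lam : ℝ,
    1 ≤ lam → 8 * D * lam ≤ Real.log (Real.log x) →
    ∃ E z : ℕ, (0 : ℝ) < E ∧ D * lam ≤ Real.log E ∧ Real.exp (D * lam) ≤ E ∧
    (E : ℝ) ≤ 2 * Real.exp (D * lam) ∧
    ∀ y : ℕ, Real.log x ≤ y → (y : ℝ) ≤ Real.log x ^ 2 → Su E z x y := by
  obtain ⟨x0, hx0⟩ := eventually_atTop.1 (hlogN.eventually_ge_atTop 900)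
  refine ⟨x0, fun x hx lam h1 h2 => ?_⟩
  have hl := hx0 x hx
  set l := Real.log (x : ℝ) with hldef
  have hDl : 0 ≤ D * lam := by nlinarith
  have he1 : 1 ≤ Real.exp (D * lam) := Real.one_le_exp hDl
  obtain ⟨E, hE⟩ : ∃ E, E = ⌈Real.exp (D * lam)⌉₊ := ⟨_, rfl⟩
  have hE1 : Real.exp (D * lam) ≤ E := by rw [hE]; exact Nat.le_ceil _
  have hE2 : (E : ℝ) ≤ 2 * Real.exp (D * lam) := by
    have := Nat.ceil_lt_add_one (Real.exp_pos (D * lam)).le
    rw [← hE] at this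
    linarith
  have hE0 : (1 : ℝ) ≤ E := he1.trans hE1
  have hE0' : 1 ≤ E := by exact_mod_cast hE0
  have hl0 : 0 < l := by linarith
  have hxpos : (0 : ℝ) < x := by
    by_contra hcon
    have h3 : (x : ℝ) = 0 := le_antisymm (not_lt.1 hcon) (Nat.cast_nonneg _)
    rw [hldef, h3, Real.log_zero] at hl
    linarith
  -- `E ^ 8 ≤ 256 l`
  have h3 : (Real.exp (D * lam)) ^ 8 ≤ l := by
    rw [← Real.exp_nat_mul, ← Real.le_log_iff_exp_le hl0]
    push_cast
    linarith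
  have h4 : (E : ℝ) ^ 8 ≤ 256 * l := by
    calc (E : ℝ) ^ 8 ≤ (2 * Real.exp (D * lam)) ^ 8 := pow_le_pow_left₀ (by linarith) hE2 8
      _ = 256 * Real.exp (D * lam) ^ 8 := by ring
      _ ≤ 256 * l := by linarith
  have h5 : 2 * (E : ℝ) ^ 2 ≤ l := by
    by_contra hcon
    push Not at hcon
    have h6 : l ^ 4 < (2 * (E : ℝ) ^ 2) ^ 4 := pow_lt_pow_left₀ hcon hl0.le (by norm_num)
    have h7 : (2 * (E : ℝ) ^ 2) ^ 4 = 16 * (E : ℝ) ^ 8 := by ring
    have h8 : l ^ 4 < 4096 * l := by linarith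
    have h9 : 900 ^ 3 ≤ l ^ 3 := pow_le_pow_left₀ (by norm_num) hl 3
    have h10 : l ^ 4 = l ^ 3 * l := by ring
    nlinarith
  have hT : ((⌈Real.exp E⌉₊ : ℕ) : ℝ) ≤ Real.exp (E + 1) := by
    have h6 := Nat.ceil_lt_add_one (Real.exp_pos (E : ℝ)).le
    have h7 : Real.exp ((E : ℝ) + 1) = Real.exp E * Real.exp 1 := Real.exp_add _ _
    have h8 := Real.exp_one_gt_d9
    have h9 : 1 ≤ Real.exp (E : ℝ) := Real.one_le_exp (by positivity)
    rw [h7]
    nlinarith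
  have hpow : ⌈Real.exp E⌉₊ ^ E ≤ x := by
    have h6 : (((⌈Real.exp E⌉₊ : ℕ) : ℝ)) ^ E ≤ Real.exp l := by
      calc (((⌈Real.exp E⌉₊ : ℕ) : ℝ)) ^ E ≤ Real.exp (E + 1) ^ E :=
            pow_le_pow_left₀ (Nat.cast_nonneg _) hT E
        _ = Real.exp (E * (E + 1)) := by rw [← Real.exp_nat_mul]
        _ ≤ Real.exp l := by
            apply Real.exp_le_exp.2
            nlinarith
    rw [hldef, Real.exp_log hxpos] at h6
    exact_mod_cast h6
  obtain ⟨z, hz1, hz2, hz3⟩ := Pool.Agent.Helper88.PP.root_exists E _ x hE0' hpow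
  refine ⟨E, z, by linarith, ?_, hE1, hE2, fun y hy1 hy2 => ⟨?_, hz2, hz3, hy1, hy2⟩⟩
  · rw [Real.le_log_iff_exp_le (by linarith)]
    exact hE1
  · exact (Nat.le_ceil _).trans (by exact_mod_cast hz1)

/-- sizes of the blocks -/
theorem sizes3 {δ : ℝ} (hδ : 0 < δ) {M : ℕ} (hM : 1 ≤ M) :
    ∀ᶠ x : ℕ in atTop, ∀ lam : ℝ, 2 * δ + 1 ≤ lam →
      lam ≤ Real.log (Real.log x) → ∃ U l : ℕ, lam * Real.log x ≤ U ∧
      (U : ℝ) ≤ 2 * lam * Real.log x ∧
      δ * Real.log x ≤ l ∧ (l : ℝ) ≤ 2 * δ * Real.log x ∧ l ≤ U ∧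
      Real.log x ≤ ((M * (U + l) : ℕ) : ℝ) ∧ ((M * (U + l) : ℕ) : ℝ) ≤ Real.log x ^ 2 ∧
      Real.log (Real.log x) ≤ l ∧ Real.log x / 20 ≤ (x / 32 : ℕ) ∧ 64 ≤ x ∧
      0 < Real.log (Real.log x) ∧ 0 < Real.log x := by
  have hM0 : (1 : ℝ) ≤ M := by exact_mod_cast hM
  have e1 : ∀ᶠ x : ℕ in atTop, Real.log (Real.log x) ≤ 1 / (4 * M) * Real.log x :=
    hlogN.eventually (log_le_eps (by positivity))
  have e2 : ∀ᶠ x : ℕ in atTop, Real.log (Real.log x) ≤ δ * Real.log x :=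
    hlogN.eventually (log_le_eps hδ)
  have e4 : ∀ᶠ x : ℕ in atTop, 1 / δ + 1 ≤ Real.log x := hlogN.eventually_ge_atTop _
  have e5 : ∀ᶠ x : ℕ in atTop, Real.log (x : ℝ) ≤ 1 / 2 * x :=
    tendsto_natCast_atTop_atTop.eventually (log_le_eps (by norm_num))
  have e6 : ∀ᶠ x : ℕ in atTop, 1 ≤ Real.log (Real.log x) := hllN.eventually_ge_atTop _
  filter_upwards [e1, e2, e4, e5, e6, eventually_ge_atTop 160] with x a1 a2 a4 a5 a7 a6
    lam b1 b2
  set L := Real.log (x : ℝ) with hL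
  set LL := Real.log L with hLL
  have hL0 : 1 ≤ L := by
    have : 0 < 1 / δ := by positivity
    linarith
  have hLL0 : 0 < LL := by linarith
  have hlam : 2 * δ + 1 ≤ lam := b1
  have hlam1 : 1 ≤ lam := by linarith
  have hb : 1 ≤ lam * L := by nlinarith
  have hd : 1 ≤ δ * L := by
    have h1 : 1 / δ ≤ L := by linarith
    rw [div_le_iff₀ hδ] at h1
    linarith
  have hU1 : lam * L ≤ (⌈lam * L⌉₊ : ℝ) := Nat.le_ceil _
  have hU2 : (⌈lam * L⌉₊ : ℝ) ≤ 2 * lam * L := by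
    have := Nat.ceil_lt_add_one (by positivity : 0 ≤ lam * L)
    linarith
  have hl1 : δ * L ≤ (⌈δ * L⌉₊ : ℝ) := Nat.le_ceil _
  have hl2 : (⌈δ * L⌉₊ : ℝ) ≤ 2 * δ * L := by
    have := Nat.ceil_lt_add_one (by positivity : 0 ≤ δ * L)
    linarith
  have h2δ : 2 * δ * L ≤ lam * L := by
    have : 2 * δ * L ≤ lam * L := mul_le_mul_of_nonneg_right (by linarith) (by linarith)
    linarith
  have hlU : (⌈δ * L⌉₊ : ℝ) ≤ (⌈lam * L⌉₊ : ℝ) := by linarith
  refine ⟨⌈lam * L⌉₊, ⌈δ * L⌉₊, hU1, hU2, hl1, hl2, by exact_mod_cast hlU, ?_, ?_, ?_, ?_,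
    by omega, hLL0, by linarith⟩
  · push_cast
    have h1 : L ≤ lam * L := by nlinarith
    have h2 : (0 : ℝ) ≤ (⌈δ * L⌉₊ : ℝ) := Nat.cast_nonneg _
    nlinarith
  · push_cast
    have h1 : (M : ℝ) * ((⌈lam * L⌉₊ : ℝ) + (⌈δ * L⌉₊ : ℝ)) ≤
        M * (2 * (2 * lam * L)) := mul_le_mul_of_nonneg_left (by linarith) (by linarith)
    have h2 : (M : ℝ) * (2 * (2 * lam * L)) = (4 * M * lam) * L := by ring
    have h3 : 4 * M * lam ≤ L := by
      have h4 : 4 * M * lam ≤ 4 * M * (1 / (4 * M) * L) :=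
        mul_le_mul_of_nonneg_left (b2.trans a1) (by positivity)
      have h5 : 4 * M * (1 / (4 * M) * L) = L := by
        field_simp
      linarith
    have h6 : (4 * M * lam) * L ≤ L * L := mul_le_mul_of_nonneg_right h3 (by linarith)
    rw [sq]
    linarith
  · linarith
  · have h1 : (x : ℝ) / 32 - 1 ≤ ((x / 32 : ℕ) : ℝ) := by
      have h2 : x < 32 * (x / 32 + 1) := by omega
      have h3 : (x : ℝ) < 32 * (((x / 32 : ℕ) : ℝ) + 1) := by exact_mod_cast h2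
      linarith
    have h2 : (160 : ℝ) ≤ x := by exact_mod_cast a6
    linarith

end Pool.Agent.Helper88.TU
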