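import Pool.Agent.Helper88.TU.Size
import Pool.Agent.Helper88.CG.TE

/-! # TU-TE: primes in progressions, uniformly -/

set_option autoImplicit false

open Finset Filter Topology

open scoped Classical

namespace Pool.Agent.Helper88.TU

open Pool.Agent.Helper88.PP (pr Rg om Sf SS uu vv ee LA VV QQ cost)
open Pool.Agent.Helper88.RR (gg)
open Pool.Agent.Helper88.CG (th te_main te_mert)

theorem te (h : Pool.Agent.Helper88.CG.StmtRB) : StmtTE := by
  obtain ⟨A, x0, hRB⟩ := h
  obtain ⟨C, hC0, hC⟩ := Pool.Agent.Helper31.LG.mertens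
  obtain ⟨E1, h1⟩ := size
  obtain ⟨E2, h2⟩ := size_pow (8 * C + A + 5) (1 / 2) (by norm_num)
  refine ⟨max (max E1 E2) (max 64 x0), ?_⟩
  intro E z x y hE hSr k L hk hkp hL hR a ha
  obtain ⟨a1, a2, a3, a4, a5, a6, a7, a8, a9, a10, a11, a12, a13, a14⟩ :=
    h1 E z x y ((le_max_left _ _).trans ((le_max_left _ _).trans hE)) hSr
  have b1 := h2 E z x y ((le_max_right _ _).trans ((le_max_left _ _).trans hE)) hSr
  have hE64' : 64 ≤ E := (le_max_left _ _).trans ((le_max_right _ _).trans hE)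
  have hEx0 : x0 ≤ E := (le_max_right _ _).trans ((le_max_right _ _).trans hE)
  obtain ⟨hz, hzx, -, -, -⟩ := hSr
  set s : ℝ := √(E : ℝ) with hs
  have hsq : s ^ 2 = E := Real.sq_sqrt (by positivity)
  have hE64 : (64 : ℝ) ≤ E := by exact_mod_cast hE64'
  have hs8 : 8 ≤ s := by
    apply Real.le_sqrt_of_sq_le
    norm_num
    linarith only [hE64']
  have hs0 : 0 < s := by linarith only [hs8]
  have hsE : s ≤ E := by rw [← hsq]; nlinarith only [hsq, hE64, hs8]
  have hz2 : 2 ≤ z := by omega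
  have hz0 : (0 : ℝ) < z := by exact_mod_cast (by omega : 0 < z)
  have hxpos : (0 : ℝ) < x := by exact_mod_cast (by omega : 0 < x)
  have hlz : 64 ≤ Real.log z := hE64.trans a1
  have hlx : 64 ≤ Real.log x := by nlinarith only [a5, hsq, hE64]
  have hx1 : 1 ≤ x := by omega
  have hEx : E ≤ x := by
    have h3 : (E : ℝ) ≤ x := by
      have h4 : Real.log x ≤ x := (Real.log_le_sub_one_of_pos hxpos).trans (by linarith)
      nlinarith only [a5, hsq, hlx, h4, hE64]
    exact_mod_cast h3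
  have hx0 : x0 ≤ x := hEx0.trans hEx
  set R := z ^ (2 * (E / 16)) with hRdef
  have hmain := te_main A x0 hRB x k z R L hx0 hx1 hk (by omega) hkp hR a ha
  refine hmain.trans ?_
  have hk0 : (0 : ℝ) < k := by exact_mod_cast hk
  set ll := Real.log (Real.log x) with hll
  -- the product
  set J := Nat.log 2 E + 1 with hJ
  have hRJ : R ≤ z ^ (2 ^ J) := by
    refine Nat.pow_le_pow_right (by omega) ?_
    have : E < 2 ^ J := Nat.lt_pow_succ_log_self (by norm_num) _
    omega
  have hJs : (J : ℝ) ≤ ll + 1 := by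
    have h1 : 2 ^ (Nat.log 2 E) ≤ E := Nat.pow_log_le_self 2 (by omega)
    have h2 : ((2 : ℝ)) ^ (Nat.log 2 E) ≤ E := by exact_mod_cast h1
    have h3 : (Nat.log 2 E : ℝ) * Real.log 2 ≤ Real.log E := by
      rw [← Real.log_pow]
      exact Real.log_le_log (by positivity) h2
    have h4 : 2 * Real.log E ≤ ll := by
      have h8 : Real.log ((E : ℝ) ^ 2) ≤ ll := Real.log_le_log (by positivity) a5
      rwa [Real.log_pow] at h8
    have h5 : (1 / 2 : ℝ) ≤ Real.log 2 := by linarith only [Real.log_two_gt_d9]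
    have h6 : (0 : ℝ) ≤ (Nat.log 2 E : ℝ) := by positivity
    have h7 : (Nat.log 2 E : ℝ) * (1 / 2) ≤ Nat.log 2 E * Real.log 2 :=
      mul_le_mul_of_nonneg_left h5 h6
    rw [hJ]
    push_cast
    linarith only [h3, h4, h7]
  have hLs : (L : ℝ) ≤ s := by
    rw [hs]
    refine Real.le_sqrt_of_sq_le ?_
    exact_mod_cast hL
  have hprod : ∏ p ∈ pr z R, (1 + (L : ℝ) / ((p : ℝ) - 1)) ≤ Real.exp (4 * C * s * J) := by
    have hgp : ∀ p ∈ pr z R, (0 : ℝ) < (p : ℝ) - 1 ∧ 1 / ((p : ℝ) - 1) ≤ 2 * (1 / (p : ℝ)) := by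
      intro p hp
      simp only [pr, mem_filter, mem_Ioc] at hp
      have h2 : (2 : ℝ) ≤ p := by exact_mod_cast hp.2.two_le
      refine ⟨by linarith only [h2], ?_⟩
      rw [mul_one_div, div_le_div_iff₀ (by linarith only [h2]) (by linarith only [h2])]
      linarith only [h2]
    calc ∏ p ∈ pr z R, (1 + (L : ℝ) / ((p : ℝ) - 1))
        ≤ ∏ p ∈ pr z R, Real.exp ((L : ℝ) / ((p : ℝ) - 1)) := by
          refine prod_le_prod (fun p hp => ?_) (fun p hp => ?_)
          · have := (hgp p hp).1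
            positivity
          · rw [add_comm]
            exact Real.add_one_le_exp _
      _ = Real.exp (∑ p ∈ pr z R, (L : ℝ) / ((p : ℝ) - 1)) := by rw [Real.exp_sum]
      _ ≤ _ := by
          apply Real.exp_le_exp.mpr
          calc ∑ p ∈ pr z R, (L : ℝ) / ((p : ℝ) - 1)
              ≤ ∑ p ∈ pr z R, (2 * s) * (1 / (p : ℝ)) := by
                refine sum_le_sum fun p hp => ?_
                obtain ⟨h1, h2⟩ := hgp p hp
                calc (L : ℝ) / ((p : ℝ) - 1) = L * (1 / ((p : ℝ) - 1)) := by ring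
                  _ ≤ s * (2 * (1 / (p : ℝ))) :=
                    mul_le_mul hLs h2 (by positivity) hs0.le
                  _ = _ := by ring
            _ ≤ ∑ p ∈ pr z (z ^ (2 ^ J)), (2 * s) * (1 / (p : ℝ)) := by
                refine sum_le_sum_of_subset_of_nonneg ?_ (fun p _ _ => by positivity)
                intro p hp
                simp only [pr, mem_filter, mem_Ioc] at hp ⊢
                exact ⟨⟨hp.1.1, hp.1.2.trans hRJ⟩, hp.2⟩
            _ = (2 * s) * ∑ p ∈ pr z (z ^ (2 ^ J)), 1 / (p : ℝ) := by rw [mul_sum]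
            _ ≤ (2 * s) * (2 * C * J) :=
                mul_le_mul_of_nonneg_left (te_mert C hC z hz2 J) (by positivity)
            _ = _ := by ring
  have hprod0 : 0 ≤ ∏ p ∈ pr z R, (1 + (L : ℝ) / ((p : ℝ) - 1)) := by
    refine prod_nonneg fun p hp => ?_
    simp only [pr, mem_filter, mem_Ioc] at hp
    have h2 : (2 : ℝ) ≤ p := by exact_mod_cast hp.2.two_le
    have : (0 : ℝ) < (p : ℝ) - 1 := by linarith only [h2]
    positivity
  have hprod2 : (∏ p ∈ pr z R, (1 + (L : ℝ) / ((p : ℝ) - 1))) ^ 2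
      ≤ Real.exp (8 * C * s * J) := by
    calc (∏ p ∈ pr z R, (1 + (L : ℝ) / ((p : ℝ) - 1))) ^ 2
        ≤ (Real.exp (4 * C * s * J)) ^ 2 := pow_le_pow_left₀ hprod0 hprod 2
      _ = Real.exp (8 * C * s * J) := by
          rw [← Real.exp_nat_mul]
          congr 1
          push_cast
          ring
  -- the logarithm of R
  have hI : ((Nat.log 2 R + 1 : ℕ) : ℝ) ≤ 3 * Real.log x := by
    have hRx : R ≤ x := by
      refine le_trans ?_ hR
      calc R ≤ k * R := Nat.le_mul_of_pos_left R (by omega)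
        _ ≤ (k * R) ^ 4 := Nat.le_self_pow (by norm_num) _
    have hR1 : R ≠ 0 := by positivity
    have h1 : 2 ^ (Nat.log 2 R) ≤ R := Nat.pow_log_le_self 2 hR1
    have h2 : ((2 : ℝ)) ^ (Nat.log 2 R) ≤ x := by exact_mod_cast h1.trans hRx
    have h3 : (Nat.log 2 R : ℝ) * Real.log 2 ≤ Real.log x := by
      rw [← Real.log_pow]
      exact Real.log_le_log (by positivity) h2
    have h5 : (1 / 2 : ℝ) ≤ Real.log 2 := by linarith only [Real.log_two_gt_d9]
    have h6 : (0 : ℝ) ≤ (Nat.log 2 R : ℝ) := by positivity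
    have h7 : (Nat.log 2 R : ℝ) * (1 / 2) ≤ Nat.log 2 R * Real.log 2 :=
      mul_le_mul_of_nonneg_left h5 h6
    push_cast
    linarith only [hlx, h3, h7]
  -- the bracket
  have hzinv : 2 / (z : ℝ) = 2 * Real.exp (-Real.log z) := by
    rw [Real.exp_neg, Real.exp_log hz0, ← div_eq_mul_inv]
  have hxinv : (x : ℝ) ^ (-(1 / 50) : ℝ) ≤ Real.exp (-Real.log z) := by
    rw [Real.rpow_def_of_pos hxpos]
    apply Real.exp_le_exp.mpr
    have h1 : 64 * Real.log z ≤ E * Real.log z :=
      mul_le_mul_of_nonneg_right hE64 (by linarith only [a1, hE64])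
    linarith only [a1, a2, hE64, h1]
  have hlexp : Real.log x = Real.exp ll := (Real.exp_log (by linarith only [hlx])).symm
  have hbr : 2 / (z : ℝ) + ((Nat.log 2 R + 1 : ℕ) : ℝ) * (x : ℝ) ^ (-(1 / 50) : ℝ)
      ≤ 5 * Real.exp ll * Real.exp (-Real.log z) := by
    have h1 : ((Nat.log 2 R + 1 : ℕ) : ℝ) * (x : ℝ) ^ (-(1 / 50) : ℝ)
        ≤ 3 * Real.log x * Real.exp (-Real.log z) :=
      mul_le_mul hI hxinv (by positivity) (by positivity)
    have h2 : 2 * Real.exp (-Real.log z) ≤ 2 * Real.log x * Real.exp (-Real.log z) := by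
      refine mul_le_mul_of_nonneg_right ?_ (Real.exp_pos _).le
      linarith only [hlx]
    rw [← hlexp, hzinv]
    linarith only [h1, h2]
  have hlA : Real.log x ^ A = Real.exp (A * ll) := by
    rw [Real.exp_nat_mul, ← hlexp]
  have hLe : (L : ℝ) ≤ Real.exp ll := by
    rw [← hlexp]
    nlinarith only [a5, hsq, hsE, hlx, hLs, hE64]
  have h5e : (5 : ℝ) ≤ Real.exp 2 := by
    have h1 : (2.7 : ℝ) ≤ Real.exp 1 := by linarith only [Real.exp_one_gt_d9]
    have h2 : Real.exp 2 = Real.exp 1 * Real.exp 1 := by rw [← Real.exp_add]; norm_num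
    rw [h2]
    nlinarith only [h1]
  have hfin : 8 * C * s * J + ll + A * ll + 2 + ll - Real.log z ≤ -(1 / 2 * Real.log z) := by
    have h1 : 8 * C * s * J ≤ 8 * C * s * (ll + 1) :=
      mul_le_mul_of_nonneg_left hJs (by positivity)
    have h3 : 0 ≤ C * (1 + ll) := by
      have : 0 ≤ 1 + ll := by linarith only [a13]
      positivity
    have h4 : 0 ≤ (A : ℝ) * s * (1 + ll) := by
      have : 0 ≤ 1 + ll := by linarith only [a13]
      positivity
    have h5 : 0 ≤ (A : ℝ) := by positivity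
    have h6 : 0 ≤ s * (1 + ll) := by
      have : 0 ≤ 1 + ll := by linarith only [a13]
      positivity
    have h7 : (8 * C + A + 5) * (1 + s) * (1 + ll) =
        8 * (C * (1 + ll)) + 8 * C * s * (ll + 1) + A * (1 + ll) + A * s * (1 + ll) +
        5 * (1 + ll) + 5 * (s * (1 + ll)) := by ring
    nlinarith only [a13, b1, h1, h3, h4, h6]
  have hsz : √(z : ℝ) = Real.exp (1 / 2 * Real.log z) := by
    rw [Real.sqrt_eq_rpow, Real.rpow_def_of_pos hz0]
    ring_nf
  calc (∏ p ∈ pr z R, (1 + (L : ℝ) / ((p : ℝ) - 1))) ^ 2 * (L * (x / k * Real.log x ^ A *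
        (2 / z + ((Nat.log 2 R + 1 : ℕ) : ℝ) * (x : ℝ) ^ (-(1 / 50) : ℝ))))
      ≤ Real.exp (8 * C * s * J) * (Real.exp ll * (x / k * Real.exp (A * ll) *
          (5 * Real.exp ll * Real.exp (-Real.log z)))) := by
        have hxk : (0 : ℝ) ≤ x / k := by positivity
        rw [hlA]
        gcongr
    _ ≤ Real.exp (8 * C * s * J) * (Real.exp ll * (x / k * Real.exp (A * ll) *
          (Real.exp 2 * Real.exp ll * Real.exp (-Real.log z)))) := by
        have hxk : (0 : ℝ) ≤ x / k := by positivity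
        gcongr
    _ = Real.exp (8 * C * s * J + ll + A * ll + 2 + ll - Real.log z) * (x / k) := by
        rw [sub_eq_add_neg, Real.exp_add, Real.exp_add, Real.exp_add, Real.exp_add, Real.exp_add]
        ring
    _ ≤ Real.exp (-(1 / 2 * Real.log z)) * (x / k) := by
        refine mul_le_mul_of_nonneg_right (Real.exp_le_exp.mpr hfin) (by positivity)
    _ = x / k / √(z : ℝ) := by
        rw [hsz, Real.exp_neg]
        ring

end Pool.Agent.Helper88.TU
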