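import Pool.Agent.Helper88.TU.Size
import Pool.Agent.Helper88.CG.KQ

/-! # TU-KQ: the primes at the points of `P` are killed by the weight -/

set_option autoImplicit false

open Finset Filter Topology

open scoped Classical

namespace Pool.Agent.Helper88.TU

open Pool.Agent.Helper88.PP (pr Rg om Sf SS uu vv ee LA VV QQ cost)
open Pool.Agent.Helper88.RR (gg ab TB WB nz wb DB VM GB tail point om_nonneg)
open Pool.Agent.Helper88.GM (NI XI In XI_pos)
open Pool.Agent.Helper88.CG (StmtVP mE qE Wt Dt small)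

theorem kq (h : StmtVP) (hS1 : StmtS1) (hGT : StmtGT) : StmtKQ := by
  obtain ⟨c1, hc1, EV, hVP⟩ := h
  obtain ⟨cG, hcG, EG, hGT⟩ := hGT
  obtain ⟨cS, hcS, ES, hS1⟩ := hS1
  obtain ⟨EZ, hZ⟩ := size
  set c : ℝ := min 1 (c1 / 100) with hc
  have hc0 : 0 < c := lt_min one_pos (by positivity)
  have hcl : c ≤ c1 / 100 := min_le_right _ _
  have hcone : c ≤ 1 := min_le_left _ _
  clear_value c
  refine ⟨c, hc0, fun η hη => ?_⟩
  obtain ⟨E2, hE2⟩ := small η cG hη hcG
  refine ⟨max (max (max ES EG) EZ) (max (max EV E2) 300), ?_⟩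
  intro E z x y hE hSr b hb P hP hPo
  have hEES : ES ≤ E := le_trans (le_trans (le_trans (le_max_left _ _) (le_max_left _ _))
    (le_max_left _ _)) hE
  have hEEG : EG ≤ E := le_trans (le_trans (le_trans (le_max_right _ _) (le_max_left _ _))
    (le_max_left _ _)) hE
  have hEEZ : EZ ≤ E := le_trans (le_trans (le_max_right _ _) (le_max_left _ _)) hE
  have hEEV : EV ≤ E := le_trans (le_trans (le_trans (le_max_left _ _) (le_max_left _ _))
    (le_max_right _ _)) hE
  have hEE2 : E2 ≤ E := le_trans (le_trans (le_trans (le_max_right _ _) (le_max_left _ _))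
    (le_max_right _ _)) hE
  have hE300 : 300 ≤ E := le_trans (le_trans (le_max_right _ _) (le_max_right _ _)) hE
  obtain ⟨s1, s2⟩ := hE2 E hEE2
  obtain ⟨v1, v2, v3, v4, v5, v6⟩ := hVP E hEEV
  obtain ⟨a1, a2, a3, a4, a5, a6, a7, a8, a9, a10, a11, a12, a13, a14⟩ := hZ E z x y hEEZ hSr
  set m := mE E with hm
  set q := qE E with hq
  have hq1 : 1 ≤ q := by rw [hq, qE]; exact Nat.one_le_two_pow
  have hqm : q * m ≤ E / 16 := by
    refine le_trans (Nat.mul_le_mul_right _ ?_) v2
    nlinarith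
  have hK : (E / 16 / m + 1) ^ 3 ≤ E := by
    refine le_trans ?_ v4
    have ha : ∀ a : ℕ, a + 1 ≤ 2 * (a + 2) := fun a => by omega
    calc (E / 16 / m + 1) ^ 3 ≤ (2 * (E / 16 / m + 2)) ^ 3 := Nat.pow_le_pow_left (ha _) 3
      _ ≤ (2 * (E / 16 / m + 2)) ^ 6 := Nat.pow_le_pow_right (Nat.succ_le_of_lt (by positivity)) (by norm_num)
  have hj : 2 * (q / 2 * (q * m)) ≤ E / 16 := by
    refine le_trans ?_ v2
    have h1 : 2 * (q / 2) ≤ q := Nat.mul_div_le q 2
    calc 2 * (q / 2 * (q * m)) = 2 * (q / 2) * (q * m) := by ring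
      _ ≤ q * (q * m) := Nat.mul_le_mul_right _ h1
      _ = q ^ 2 * m := by ring
  have hE0 : E ≠ 0 := by omega
  have hEr : (300 : ℝ) ≤ E := by exact_mod_cast hE300
  have hEpos : (0 : ℝ) < E := by linarith
  -- the size of `z`
  have hx1 : z ^ E ≤ x := hSr.2.1
  have hz2' : 2 ≤ z := by omega
  obtain ⟨hV1, hVlog⟩ := v6 z hz2'
  set V := VV z m (q * m) with hV
  have hV0 : V ≠ 0 := by linarith
  have hVpos : 0 < V := by linarith
  have hlogE0 : 0 ≤ Real.log E := Real.log_nonneg (by linarith)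
  -- the hypotheses on `P`
  have hom := om_nonneg y z
  have hPo2 : (P.card : ℝ) * om y z ≤ (E : ℝ) ^ 2 := by
    refine hPo.trans ?_
    have h1 : Real.log E ≤ E := Real.log_le_self hEpos.le
    calc c * (E * Real.log E) ≤ 1 * (E * E) := by
          apply mul_le_mul hcone _ (by positivity) (by norm_num)
          exact mul_le_mul_of_nonneg_left h1 hEpos.le
      _ = (E : ℝ) ^ 2 := by ring
  have hPy : P.card ≤ y := by
    have := Finset.card_le_card hP
    rwa [Nat.card_Icc, Nat.add_sub_cancel] at this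
  have hMr : (E : ℝ) / 17 ≤ ((E / 16 : ℕ) : ℝ) := by
    have : E ≤ 17 * (E / 16) := by clear hj hK v2 v4 v5; omega
    have h3 : (E : ℝ) ≤ 17 * ((E / 16 : ℕ) : ℝ) := by exact_mod_cast this
    linarith
  have hx0' : 0 < x := by omega
  have hIn : In x (x / 32) x (QQ x) b := ⟨dvd_rfl, hb, by omega⟩
  obtain ⟨hD1, _⟩ := hS1 E z x y hEES hSr (x / 32) x (QQ x) b hIn m q v1 hqm hV1 hK P hP hPo2
  have hG := hGT E z x y hEEG hSr (x / 32) x (QQ x) b hIn m q v1 hqm hV1 hK P hP hPo2
  -- the tail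
  have htail := tail Pool.Agent.Helper28.RR.ra m q (E / 16) z y (q / 2) P hPy hV0 hj (by
    refine le_trans ?_ hMr
    rw [← hV]
    have h1 : (P.card : ℝ) * om y z * (1 / V) ≤ c * (E * Real.log E) * (1 / V) :=
      mul_le_mul_of_nonneg_right hPo (by positivity)
    have h2 : c * (E * Real.log E) * (1 / V) ≤ E / 100 := by
      rw [mul_one_div, div_le_iff₀ hVpos]
      have h3 : c * Real.log E ≤ V / 100 := by
        calc c * Real.log E ≤ c1 / 100 * Real.log E :=
              mul_le_mul_of_nonneg_right hcl hlogE0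
          _ ≤ V / 100 := by linarith
      calc c * (E * Real.log E) = E * (c * Real.log E) := by ring
        _ ≤ E * (V / 100) := mul_le_mul_of_nonneg_left h3 hEpos.le
        _ = E / 100 * V := by ring
    linarith)
  have hDt : Dt E z y P = DB m q (E / 16) z y P := rfl
  rw [hDt]
  set D := DB m q (E / 16) z y P with hD
  set Sig := ∑ r ∈ (TB m q (E / 16) z P).filter (fun r => E / 16 < cost z r + q * m),
    wb m q y z r with hSig
  have hXX : 0 < XI (x / 32) x (QQ x) := XI_pos (by omega) hIn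
  have hD0 : 0 < D := by linarith
  have hSigD : Sig ≤ 1 / 2 ^ (q / 2) * D := by
    rw [one_div, ← div_eq_inv_mul, le_div_iff₀ (by positivity), mul_comm]
    exact htail
  have hA : ∑ n ∈ NI (x / 32) x (QQ x) b,
      Wt E z y P n ^ 2 * ((P.filter (fun h => (n + h).Prime)).card : ℝ) ≤
      ∑ n ∈ NI (x / 32) x (QQ x) b, ∑ h : P, GB m q (E / 16) z y P h n ^ 2 := by
    refine Finset.sum_le_sum fun n hn => ?_
    have hn1 : x / 32 < n := (Finset.mem_Ioc.mp (Finset.mem_filter.mp hn).1).1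
    have hzn : z ^ (E / 16) ≤ n := by
      have h6 : z ^ (E / 16) * 32 ≤ x := by
        refine le_trans ?_ hx1
        calc z ^ (E / 16) * 32 = z ^ (E / 16) * 2 ^ 5 := by norm_num
          _ ≤ z ^ (E / 16) * z ^ 5 := Nat.mul_le_mul_left _ (Nat.pow_le_pow_left hz2' 5)
          _ = z ^ (E / 16 + 5) := (pow_add _ _ _).symm
          _ ≤ z ^ E := Nat.pow_le_pow_right (by omega) (by omega)
      omega
    exact point Pool.Agent.Helper59.RR.pw m q (E / 16) z y n P v3 v1 hz2' hV0 hqm hzn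
  rw [Finset.sum_comm] at hA
  have hB := hA.trans (Finset.sum_le_sum fun h _ => hG h)
  rw [Finset.sum_const, nsmul_eq_mul, Finset.card_univ, Fintype.card_coe] at hB
  refine hB.trans ?_
  have hSig0 : Sig + Real.exp (-(cG * E)) ≤
      1 / 2 ^ (q / 2) * D + Real.exp (-(cG * E)) * D := by
    have h1 : Real.exp (-(cG * E)) ≤ Real.exp (-(cG * E)) * D :=
      le_mul_of_one_le_right (Real.exp_pos _).le hD1
    linarith
  have hPom : 0 ≤ (P.card : ℝ) * om y z := mul_nonneg (Nat.cast_nonneg _) hom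
  calc (P.card : ℝ) * (XI (x / 32) x (QQ x) * om y z * (Sig + Real.exp (-(cG * E))))
      = XI (x / 32) x (QQ x) * ((P.card : ℝ) * om y z * (Sig + Real.exp (-(cG * E)))) := by ring
    _ ≤ XI (x / 32) x (QQ x) * ((P.card : ℝ) * om y z *
          (1 / 2 ^ (q / 2) * D + Real.exp (-(cG * E)) * D)) := by gcongr
    _ ≤ XI (x / 32) x (QQ x) * ((E : ℝ) ^ 2 *
          (1 / 2 ^ (q / 2) * D + Real.exp (-(cG * E)) * D)) := by
        have : 0 ≤ 1 / 2 ^ (q / 2) * D + Real.exp (-(cG * E)) * D := by positivity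
        gcongr
    _ = XI (x / 32) x (QQ x) * D * ((E : ℝ) ^ 2 * (1 / 2 ^ (q / 2)) +
          (E : ℝ) ^ 2 * Real.exp (-(cG * E))) := by ring
    _ ≤ XI (x / 32) x (QQ x) * D * (η / 2 + η / 2) :=
        mul_le_mul_of_nonneg_left (add_le_add s1 s2) (by positivity)
    _ = η * (XI (x / 32) x (QQ x) * D) := by ring

end Pool.Agent.Helper88.TU
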