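import Pool.Agent.Helper88.TU.Prep
import Pool.Agent.Helper88.AC.AF

/-! # TU: many windows -/

set_option autoImplicit false

open Finset Filter Topology

open scoped Classical

namespace Pool.Agent.Helper88.TU

open Pool.Agent.Helper88.PP (pr Rg om Sf SS uu vv ee LA VV QQ cost)
open Pool.Agent.Helper88.RR (gg ab TB WB nz DB VM)
open Pool.Agent.Helper88.GM (NI XI In)
open Pool.Agent.Helper88.CG (StmtA1 StmtA3 Wt Dt mE qE blk nb pw)
open Pool.Agent.Helper87.CG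
open Pool.Agent.Helper88.AC (hlogN hllN avg2 key_sum small_p2 nl3')

theorem nl8 {a E : ℝ} (h0 : 1 ≤ E) (h : a ≤ E ^ 2 / 2) : a + E ≤ 2 * E ^ 2 := by nlinarith

theorem nl9 {M CR XD a E : ℝ} {S : ℝ} (hM : 0 ≤ M) (hCR : 0 ≤ CR) (hXD : 0 ≤ XD) (hE : 0 ≤ E)
    (h1 : S ≤ CR * XD * a) (h2 : a ≤ 2 * E ^ 2) (h3 : 4 * M * CR ≤ E) :
    M * S ≤ E ^ 3 * (XD / 2) := by
  calc M * S ≤ M * (CR * XD * a) := mul_le_mul_of_nonneg_left h1 hM
    _ ≤ M * (CR * XD * (2 * E ^ 2)) := by gcongr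
    _ = (4 * M * CR) * E ^ 2 * (XD / 2) := by ring
    _ ≤ E * E ^ 2 * (XD / 2) := by gcongr
    _ = E ^ 3 * (XD / 2) := by ring

theorem nl10 {M U l C k lam L m : ℝ} (hM : M ≤ C * k ^ 2) (hM0 : 0 ≤ M) (hC : 0 ≤ C)
    (hl : l ≤ U) (hl0 : 0 ≤ l) (hU : U ≤ 2 * lam * L) (h0 : 0 ≤ lam * L) (hm : 4 * C ≤ m) :
    M * (U + l) ≤ m * k ^ 2 * lam * L := by
  have h1 : 0 ≤ k ^ 2 * (lam * L) := by positivity
  have h2 : U + l ≤ 4 * (lam * L) := by linarith
  calc M * (U + l) ≤ (C * k ^ 2) * (4 * (lam * L)) := by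
        apply mul_le_mul hM h2 (by linarith) (by positivity)
    _ = 4 * C * (k ^ 2 * (lam * L)) := by ring
    _ ≤ m * (k ^ 2 * (lam * L)) := mul_le_mul_of_nonneg_right hm h1
    _ = _ := by ring

theorem nl11 {a b c d : ℝ} (h : a ≤ b) (hc : 0 ≤ c) (hd : 0 ≤ d) : a * c * d ≤ b * c * d := by
  gcongr

theorem nl12 {D lam : ℝ} (hD : 3 ≤ D) (h : 1 ≤ lam) : lam ≤ Real.exp (D * lam) := by
  have e2 := Real.add_one_le_exp (D * lam)
  nlinarith

set_option maxHeartbeats 4000000 in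
theorem af (h1 : StmtLB) (h2 : StmtPB) (h3 : StmtBT) (h4 : StmtKQ) (h5 : StmtA1) (h6 : StmtA3)
    (h7 : StmtA4) (h8 : StmtS1) (h9 : StmtSU) (h10 : StmtRC) : StmtAF := by
  obtain ⟨E10, hSU⟩ := h9
  obtain ⟨CR, hCR, E11, hRC⟩ := h10
  obtain ⟨E12, hSize⟩ := size
  obtain ⟨CP, hCP, E2, hPB⟩ := h2
  obtain ⟨CB, hCB, E3, hBT⟩ := h3
  obtain ⟨cK, hcK, hKQ⟩ := h4
  obtain ⟨cA, hcA, x5, hA1⟩ := h5
  obtain ⟨C3, hC3, x6, hA3⟩ := h6
  obtain ⟨C4, hC4, E7, hA4⟩ := h7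
  obtain ⟨cS, hcS, E8, hS1⟩ := h8
  obtain ⟨_, _, E9, hVP⟩ := Pool.Agent.Helper88.CG.vp
  obtain ⟨C5, hC5⟩ : ∃ C5 : ℝ, C5 = 8 * C3 * C4 ^ 2 := ⟨_, rfl⟩
  have hC50 : 0 < C5 := by rw [hC5]; positivity
  obtain ⟨δ1, hδ1⟩ : ∃ δ1 : ℝ, δ1 = min 1 (cA / (4 * CP * C5)) := ⟨_, rfl⟩
  have hδ10 : 0 < δ1 := by rw [hδ1]; exact lt_min one_pos (by positivity)
  have hδ11 : δ1 ≤ 1 := hδ1 ▸ min_le_left _ _
  have hδ12 : 4 * CP * C5 * δ1 ≤ cA := by
    have : δ1 ≤ cA / (4 * CP * C5) := hδ1 ▸ min_le_right _ _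
    rw [le_div_iff₀ (by positivity)] at this
    linarith only [this]
  obtain ⟨R1, hR1⟩ : ∃ R1 : ℝ, R1 = 16 / cA + 1 := ⟨_, rfl⟩
  have hR11 : 1 ≤ R1 := by
    rw [hR1]
    have : 0 < 16 / cA := by positivity
    linarith only [this]
  have hR1A : 16 ≤ cA * R1 := by
    rw [hR1, mul_add, mul_div_cancel₀ _ hcA.ne']
    linarith only [hcA]
  obtain ⟨Λ, hΛ⟩ : ∃ Λ : ℝ, Λ = 32 * CB ^ 2 * C5 / cA ^ 2 := ⟨_, rfl⟩
  have hΛ0 : 0 < Λ := by rw [hΛ]; positivity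
  obtain ⟨C'', hC''⟩ : ∃ C'' : ℝ, C'' = 18 * R1 / δ1 := ⟨_, rfl⟩
  have hC''0 : 0 < C'' := by rw [hC'']; positivity
  obtain ⟨D0, hD0⟩ : ∃ D0 : ℝ, D0 = max 3 (4 * Λ * C'' * C4 / cK) := ⟨_, rfl⟩
  have hD03 : 3 ≤ D0 := hD0 ▸ le_max_left _ _
  have hD0c : 4 * Λ * C'' * C4 ≤ cK * D0 := by
    have : 4 * Λ * C'' * C4 / cK ≤ D0 := hD0 ▸ le_max_right _ _
    rw [div_le_iff₀ hcK] at this
    linarith only [this]
  refine ⟨1 / (8 * D0), max (4 * D0) (4 * C''), by positivity,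
    lt_of_lt_of_le (by positivity) (le_max_left _ _), fun k hk => ?_⟩
  obtain ⟨D, hD⟩ : ∃ D : ℝ, D = D0 * k ^ 2 := ⟨_, rfl⟩
  have hk0 : (1 : ℝ) ≤ k := by exact_mod_cast hk
  obtain ⟨K, hK⟩ : ∃ K : ℝ, K = (k : ℝ) + 2 := ⟨_, rfl⟩
  have hK1 : 1 ≤ K := by rw [hK]; linarith only [hk0]
  have hK3 : K ≤ 3 * k := by rw [hK]; linarith only [hk0]
  obtain ⟨δ, hδ⟩ : ∃ δ : ℝ, δ = δ1 / K := ⟨_, rfl⟩
  have hδ0 : 0 < δ := by rw [hδ]; positivity
  obtain ⟨R, hR⟩ : ∃ R : ℝ, R = K * R1 := ⟨_, rfl⟩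
  have hR0 : 1 ≤ R := by rw [hR]; exact nl1 hK1 hR11
  have hδle : δ ≤ 1 := by
    rw [hδ]
    exact (div_le_one (by linarith only [hk0, hK])).2 (hδ11.trans hK1)
  obtain ⟨M, hM⟩ : ∃ M : ℕ, M = ⌈R / δ⌉₊ := ⟨_, rfl⟩
  have hM1 : R / δ ≤ M := by rw [hM]; exact Nat.le_ceil _
  have hRδ : 1 ≤ R / δ := by
    rw [le_div_iff₀ hδ0]
    linarith only [hR0, hδle]
  have hM2 : (M : ℝ) ≤ 2 * (R / δ) := by
    have := Nat.ceil_lt_add_one (by linarith only [hRδ] : 0 ≤ R / δ)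
    rw [← hM] at this
    linarith only [hRδ, this]
  have hM1' : 1 ≤ M := by
    have : (1 : ℝ) ≤ M := hRδ.trans hM1
    exact_mod_cast this
  have hMk : (M : ℝ) ≤ C'' * (k : ℝ) ^ 2 := by
    refine hM2.trans ?_
    rw [hR, hδ, hC'']
    have e1 : 2 * (K * R1 / (δ1 / K)) = 2 * R1 / δ1 * K ^ 2 := by
      field_simp
    rw [e1]
    have e2 : K ^ 2 ≤ 9 * (k : ℝ) ^ 2 := nl2 hK1 hK3
    have e3 : 2 * R1 / δ1 * K ^ 2 ≤ 2 * R1 / δ1 * (9 * (k : ℝ) ^ 2) :=
      mul_le_mul_of_nonneg_left e2 (by positivity)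
    have e4 : 2 * R1 / δ1 * (9 * (k : ℝ) ^ 2) = 18 * R1 / δ1 * (k : ℝ) ^ 2 := by ring
    linarith only [e3, e4]
  obtain ⟨G, hG⟩ : ∃ G : ℝ, G = K + M + (1 + 2 * C5 * R ^ 2) / 2 := ⟨_, rfl⟩
  have hG0 : 0 < G := by
    rw [hG]
    have : (0 : ℝ) ≤ M := Nat.cast_nonneg M
    positivity
  obtain ⟨η, hη⟩ : ∃ η : ℝ, η = min (1 / 6) (K / G) := ⟨_, rfl⟩
  have hη0 : 0 < η := by rw [hη]; exact lt_min (by norm_num) (by positivity)
  have hη1 : η ≤ 1 / 6 := hη ▸ min_le_left _ _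
  have hη2 : η * (K + M + (1 + 2 * C5 * R ^ 2) / 2) ≤ K := by
    have : η ≤ K / G := hη ▸ min_le_right _ _
    rw [le_div_iff₀ hG0, hG] at this
    exact this
  obtain ⟨E4, hKQ'⟩ := hKQ η hη0
  obtain ⟨E1, hLB⟩ := h1 η hη0
  obtain ⟨E5, hE5⟩ := sizesE (cS := cS) (η := η) (cK := cK) hcS hη0 hcK
  have hk2 : (1 : ℝ) ≤ (k : ℝ) ^ 2 := one_le_pow₀ hk0
  have hD3 : 3 ≤ D := by
    rw [hD]
    nlinarith only [hk2, hD03]
  have hDk : 4 * Λ * C'' * C4 * (k : ℝ) ^ 2 ≤ cK * D := by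
    rw [hD]
    calc 4 * Λ * C'' * C4 * (k : ℝ) ^ 2 ≤ cK * D0 * (k : ℝ) ^ 2 :=
          mul_le_mul_of_nonneg_right hD0c (by positivity)
      _ = cK * (D0 * (k : ℝ) ^ 2) := by ring
  obtain ⟨Z, hZ⟩ : ∃ Z : ℝ, Z = 4 * (2 * C5 * CB ^ 2 * R ^ 2) * M := ⟨_, rfl⟩
  have hZ0 : 0 < Z := by
    rw [hZ]
    have : (0 : ℝ) < M := by exact_mod_cast hM1'
    positivity
  obtain ⟨EM, hEM⟩ : ∃ EM : ℕ, EM =
    max E1 (max E2 (max E3 (max E4 (max E5 (max E7 (max E8 (max E9 (max E10 (max E11 (max E12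
      ⌈4 * M * CR⌉₊)))))))))) := ⟨_, rfl⟩
  obtain ⟨x1, hx1⟩ := choose3 hD3
  obtain ⟨x0, hx0⟩ := eventually_atTop.1 ((sizes3 (δ := δ) hδ0 hM1').and
    ((eventually_ge_atTop x1).and ((eventually_ge_atTop x5).and (eventually_ge_atTop x6))))
  refine ⟨max 3 (max Z EM), x0, fun x hx lam hlamA hlamB => ?_⟩
  obtain ⟨hsz, t1, t2, t3⟩ := hx0 x hx
  have hlam3 : 3 ≤ lam := (le_max_left _ _).trans hlamA
  have hlamZ : Z ≤ lam := (le_max_left _ _).trans ((le_max_right _ _).trans hlamA)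
  have hlamE : (EM : ℝ) ≤ lam := (le_max_right _ _).trans ((le_max_right _ _).trans hlamA)
  have hlam1 : 1 ≤ lam := by linarith only [hη0, hη1, hlam3]
  have hlamB' : 8 * D * lam ≤ Real.log (Real.log x) := by
    have e1 : 8 * D * lam ≤ 8 * D * (1 / (8 * D0) / (k : ℝ) ^ 2 * Real.log (Real.log x)) :=
      mul_le_mul_of_nonneg_left hlamB (by positivity)
    have e2 : 8 * D * (1 / (8 * D0) / (k : ℝ) ^ 2 * Real.log (Real.log x)) =
        Real.log (Real.log x) := by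
      rw [hD]
      field_simp
    linarith only [e1, e2]
  obtain ⟨U, l, s1, s2, s3, s4, s5, s6, s7, s8, s9, s10, s11, s12⟩ := hsz lam (by linarith only [hδle, hlam3])
    (by nlinarith only [hη1, hD3, hlam3, hlamB', hη0])
  obtain ⟨E, z, u2, u3, u8, u7, u6⟩ := hx1 x t1 lam hlam1 hlamB'
  have u1 : EM ≤ E := by
    have e1 : lam ≤ Real.exp (D * lam) := nl12 hD3 hlam1
    have : (EM : ℝ) ≤ E := hlamE.trans (e1.trans u8)
    exact_mod_cast this
  rw [hEM] at u1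
  simp only [max_le_iff] at u1
  obtain ⟨v1, v2, v3, v4, v5, v7, v8, v9, v10, v11, v12, v13⟩ := u1
  have v13' : 4 * M * CR ≤ E := (Nat.le_ceil _).trans (by exact_mod_cast v13)
  obtain ⟨w1, w2, w3⟩ := hE5 E v5
  obtain ⟨y, hy⟩ : ∃ y : ℕ, y = M * (U + l) := ⟨_, rfl⟩
  rw [← hy] at s6 s7
  have hSr : Su E z x y := u6 y s6 s7
  obtain ⟨r1, r2, r3, r4, r5, r6, r7, r8, r9, r10, r11, r12, r13, r14⟩ := hSize E z x y v12 hSr
  have hQ1 : 1 ≤ QQ x := primorial_pos _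
  have hQ0 : (0 : ℝ) < QQ x := by exact_mod_cast hQ1
  obtain ⟨X, hX⟩ : ∃ X : ℝ, X = XI (x / 32) x (QQ x) := ⟨_, rfl⟩
  have hXv : X * QQ x = ((x - x / 32 : ℕ) : ℝ) := by
    rw [hX]
    unfold XI
    exact div_mul_cancel₀ _ hQ0.ne'
  have hX0 : 0 < X := by
    have : (0 : ℝ) < ((x - x / 32 : ℕ) : ℝ) := by
      have : 0 < x - x / 32 := by omega
      exact_mod_cast this
    rw [← hXv] at this
    exact (pos_iff_pos_of_mul_pos this).2 hQ0
  obtain ⟨o, ho⟩ : ∃ o : ℝ, o = om y z / E := ⟨_, rfl⟩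
  have hom0 : 0 ≤ om y z := Pool.Agent.Helper88.PP.om_nonneg y z
  have ho0 : 0 ≤ o := by rw [ho]; positivity
  have hcop : ∀ b, ∀ n ∈ NI (x / 32) x (QQ x) b, ∀ j, (n + j).Prime →
      Nat.Coprime (b + j) (QQ x) := fun b n hn j hp => coprime_of_prime s9 hn hp
  obtain ⟨fq, hfq⟩ : ∃ fq : ℝ, fq = (Nat.totient (QQ x) : ℝ) / QQ x := ⟨_, rfl⟩
  have hfq0 : 0 < fq := by
    rw [hfq]
    have : (0 : ℝ) < Nat.totient (QQ x) := by exact_mod_cast Nat.totient_pos.2 hQ1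
    positivity
  have hA4' := hA4 E z x y v7 hSr
  rw [← hfq] at hA4'
  have hofq : o * fq ≤ C4 / Real.log x := by
    rw [ho, div_mul_eq_mul_div, div_le_iff₀ u2]
    calc om y z * fq ≤ C4 * (E / Real.log x) := hA4'
      _ = C4 / Real.log x * E := by ring
  have hy0 : (0 : ℝ) < y := lt_of_lt_of_le s12 s6
  have hMδ : (M : ℝ) * δ ≤ 2 * R := by
    calc (M : ℝ) * δ ≤ 2 * (R / δ) * δ := mul_le_mul_of_nonneg_right hM2 hδ0.le
      _ = 2 * R := by field_simp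
  -- the averages
  have hr : ∀ b, (∑ a ∈ range M, ∑ j ∈ blk U l a, ∑ n ∈ NI (x / 32) x (QQ x) b, pw x (n + j)) / X
      ≤ CB * (o * ∑ a ∈ range M, ((cb (QQ x) U l b a).card : ℝ)) ∨ QQ x ≤ b := by
    intro b
    by_cases hb : b < QQ x
    · left
      refine r_le (by omega) hX0 (hcop b) ?_
      intro j hj
      rw [hX, ho]
      exact hBT E z x y v3 hSr b hb j (by rw [hy]; exact hj)
    · right
      omega
  have hts : ∑ b ∈ range (QQ x), o ^ 2 * ∑ a ∈ range M, ((cb (QQ x) U l b a).card : ℝ) ^ 2 ≤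
      QQ x * (C5 * R * δ) := by
    have e1 : ∀ a ∈ range M, ∑ b ∈ range (QQ x), ((cb (QQ x) U l b a).card : ℝ) ^ 2 ≤
        C3 * QQ x * (l * fq) ^ 2 := by
      intro a _
      rw [hfq]
      exact hA3 x t3 (a * (U + l)) l s8
    rw [← mul_sum, sum_comm]
    have e2 := sum_le_sum e1
    rw [sum_const, card_range, nsmul_eq_mul] at e2
    have e3 : o ^ 2 * (M * (C3 * QQ x * (l * fq) ^ 2)) = C3 * QQ x * M * (l * (o * fq)) ^ 2 := by
      ring
    have e4 : (l : ℝ) * (o * fq) ≤ 2 * δ * C4 := by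
      calc (l : ℝ) * (o * fq) ≤ (2 * δ * Real.log x) * (C4 / Real.log x) := by
            apply mul_le_mul s4 hofq (by positivity) (by positivity)
        _ = 2 * δ * C4 := by field_simp
    have e5 : ((l : ℝ) * (o * fq)) ^ 2 ≤ (2 * δ * C4) ^ 2 :=
      pow_le_pow_left₀ (by positivity) e4 2
    calc o ^ 2 * ∑ a ∈ range M, ∑ b ∈ range (QQ x), ((cb (QQ x) U l b a).card : ℝ) ^ 2
        ≤ o ^ 2 * (M * (C3 * QQ x * (l * fq) ^ 2)) := mul_le_mul_of_nonneg_left e2 (by positivity)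
      _ = C3 * QQ x * M * (l * (o * fq)) ^ 2 := e3
      _ ≤ C3 * QQ x * M * (2 * δ * C4) ^ 2 := mul_le_mul_of_nonneg_left e5 (by positivity)
      _ = QQ x * (4 * C3 * C4 ^ 2 * δ) * (M * δ) := by ring
      _ ≤ QQ x * (4 * C3 * C4 ^ 2 * δ) * (2 * R) := mul_le_mul_of_nonneg_left hMδ (by positivity)
      _ = QQ x * (C5 * R * δ) := by rw [hC5]; ring
  have hss : ∑ b ∈ range (QQ x), (o * ∑ a ∈ range M, ((cb (QQ x) U l b a).card : ℝ)) ^ 2 ≤
      QQ x * (2 * C5 * R ^ 2) := by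
    have e1 : ∀ b ∈ range (QQ x), (o * ∑ a ∈ range M, ((cb (QQ x) U l b a).card : ℝ)) ^ 2 ≤
        M * (o ^ 2 * ∑ a ∈ range M, ((cb (QQ x) U l b a).card : ℝ) ^ 2) := by
      intro b _
      have e2 := sq_sum_le_card_mul_sum_sq (s := range M)
        (f := fun a => ((cb (QQ x) U l b a).card : ℝ))
      rw [card_range] at e2
      rw [mul_pow]
      have e3 := mul_le_mul_of_nonneg_left e2 (by positivity : 0 ≤ o ^ 2)
      linarith only [e3]
    have e4 := sum_le_sum e1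
    rw [← mul_sum] at e4
    calc _ ≤ _ := e4
      _ ≤ M * (QQ x * (C5 * R * δ)) := mul_le_mul_of_nonneg_left hts (Nat.cast_nonneg _)
      _ = QQ x * (C5 * R) * (M * δ) := by ring
      _ ≤ QQ x * (C5 * R) * (2 * R) := mul_le_mul_of_nonneg_left hMδ (by positivity)
      _ = _ := by ring
  have hrs : QQ x * (cA * R) ≤ ∑ b ∈ range (QQ x),
      (∑ a ∈ range M, ∑ j ∈ blk U l a, ∑ n ∈ NI (x / 32) x (QQ x) b, pw x (n + j)) / X := by
    rw [← sum_div, le_div_iff₀ hX0]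
    have e1 := avg_r (x := x) (M := M) (U := U) (l := l) (c := cA * (x / Real.log x)) hQ1
      (fun j hj => hA1 x t2 j (le_trans (by rw [hy]; exact_mod_cast hj) s7))
    refine le_trans ?_ e1
    have e2 : X * QQ x ≤ x := by
      rw [hXv]
      exact_mod_cast Nat.sub_le _ _
    have e3 : R * Real.log x ≤ M * l := by
      calc R * Real.log x = (R / δ) * (δ * Real.log x) := by field_simp
        _ ≤ M * l := mul_le_mul hM1 s3 (by positivity) (Nat.cast_nonneg _)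
    calc QQ x * (cA * R) * X = (X * QQ x) * (cA * R) := by ring
      _ ≤ x * (cA * R) := mul_le_mul_of_nonneg_right e2 (by positivity)
      _ = (R * Real.log x) * (cA * (x / Real.log x)) := by field_simp
      _ ≤ M * l * (cA * (x / Real.log x)) := mul_le_mul_of_nonneg_right e3 (by positivity)
  have hps : ∑ b ∈ range (QQ x), ((Pb (QQ x) M U l b).card : ℝ) ≤ QQ x * (y * fq) := by
    refine (avg_p _ _ _ _ hQ1).trans (le_of_eq ?_)
    rw [← hy, hfq]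
    field_simp
  have havg := avg2 (Q := QQ x)
    (r := fun b => (∑ a ∈ range M, ∑ j ∈ blk U l a, ∑ n ∈ NI (x / 32) x (QQ x) b,
      pw x (n + j)) / X)
    (s := fun b => o * ∑ a ∈ range M, ((cb (QQ x) U l b a).card : ℝ))
    (t := fun b => o ^ 2 * ∑ a ∈ range M, ((cb (QQ x) U l b a).card : ℝ) ^ 2)
    (p := fun b => ((Pb (QQ x) M U l b).card : ℝ)) (M := (M : ℝ))
    hQ1 hcA hCB hCP hC50 hK1 (by linarith only [hR0, hη0, hη1]) (mul_pos hy0 hfq0) hη0.le hη1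
    (fun b _ => by positivity) (fun b _ => by positivity) (fun b _ => by positivity)
    hrs (fun b hb => (hr b).resolve_right (by omega)) hss hts hps
    (by
      rw [hδ]
      have : 4 * K * CP * C5 * (δ1 / K) = 4 * CP * C5 * δ1 := by field_simp
      linarith only [hδ12, this])
    (by
      rw [hR]
      exact nl3' hK1 hR1A)
    (Nat.cast_nonneg _) hη2
  rw [← hΛ] at havg
  obtain ⟨G, hG⟩ : ∃ G : Finset ℕ, G = (range (QQ x)).filter (fun b =>
      ((Pb (QQ x) M U l b).card : ℝ) ≤ Λ * (y * fq) ∧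
      1 ≤ (1 - η) * ((∑ a ∈ range M, ∑ j ∈ blk U l a, ∑ n ∈ NI (x / 32) x (QQ x) b,
      pw x (n + j)) / X) - η * (o * ∑ a ∈ range M, ((cb (QQ x) U l b a).card : ℝ)) -
      K * (CP / 2) * (o ^ 2 * ∑ a ∈ range M, ((cb (QQ x) U l b a).card : ℝ) ^ 2) -
      K * (1 + η) - M * η) := ⟨_, rfl⟩
  have hGc : (QQ x : ℝ) ≤ 2 * C5 * CB ^ 2 * R ^ 2 * G.card := by
    rw [hG]
    exact havg
  obtain ⟨B, hB⟩ : ∃ B : ℝ, B = Real.exp ((E : ℝ) ^ 2 / 2) := ⟨_, rfl⟩
  have hB0 : 0 < B := by rw [hB]; exact Real.exp_pos _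
  -- many integers in the good classes
  have hclass : ∀ b ∈ G, X ≤ 2 * (M * B) * (((NI (x / 32) x (QQ x) b).filter (fun n =>
      (∀ h ∈ Icc 1 (M * (U + l)), (∀ a < M, h ∉ blk U l a) → ¬ (n + h).Prime) ∧
      (k : ℝ) + 2 < ∑ a ∈ range M, ((nb n U l a : ℝ) -
        ((k : ℝ) + 2) * ((nb n U l a : ℝ) * ((nb n U l a : ℝ) - 1) / 2)))).card : ℝ) := by
    intro b hbG
    rw [hG, mem_filter, mem_range] at hbG
    obtain ⟨hb, hpb, hpos⟩ := hbG
    -- the number of killed points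
    obtain ⟨P, hP⟩ : ∃ P : Finset ℕ, P = Pb (QQ x) M U l b := ⟨_, rfl⟩
    have hPy : P ⊆ Icc 1 y := by rw [hP, hy]; exact Pb_sub _ _ _ _ _
    have hPom : (P.card : ℝ) * om y z ≤ cK * (E * Real.log E) := by
      rw [hP]
      refine small_p2 (y := y) (M := M) (U := U) (k := k) hΛ0 hC4 hC''0 hcK (by linarith only [hk0, hη0, hη1]) s12
        (by linarith only [hη0, hη1, hlam3]) u2 hDk u3 hy0.le ?_ hMk s2 (Nat.cast_nonneg _) (Nat.cast_nonneg _) hom0 hA4' hpb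
      rw [hy]
      push_cast
      exact nl4 (Nat.cast_nonneg _) (by exact_mod_cast s5)
    have hPom2 : (P.card : ℝ) * om y z ≤ (E : ℝ) ^ 2 / 2 := by
      exact nl5 hPom w2 u2
    have hIn : In x (x / 32) x (QQ x) b := ⟨dvd_rfl, hb, by omega⟩
    obtain ⟨g1, g2, -, g4, -, g6⟩ := hVP E v9
    obtain ⟨g7, -⟩ := g6 z (by omega)
    have hqE : 1 ≤ qE E := Nat.one_le_two_pow
    obtain ⟨hD1, hS⟩ := hS1 E z x y v8 hSr (x / 32) x (QQ x) b hIn (mE E) (qE E) g1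
      ((Nat.mul_le_mul_right _ (nl7 hqE)).trans g2) g7
      (pow36 g4) P hPy (nl6 hPom2)
    have hDt : (1 : ℝ) ≤ Dt E z y P := hD1
    have hSt : |∑ n ∈ NI (x / 32) x (QQ x) b, Wt E z y P n ^ 2 - X * Dt E z y P| ≤
        Real.exp (-(cS * E)) * X := by
      rw [hX]
      exact hS
    have hS' : ∑ n ∈ NI (x / 32) x (QQ x) b, Wt E z y P n ^ 2 ≤ (1 + η) * (X * Dt E z y P) := by
      have e1 := (abs_le.1 hSt).2
      have e2 : Real.exp (-(cS * E)) * X ≤ η * X := mul_le_mul_of_nonneg_right w1 hX0.le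
      have e3 : η * X ≤ η * (X * Dt E z y P) :=
        mul_le_mul_of_nonneg_left (le_mul_of_one_le_right hX0.le hDt) hη0.le
      linarith only [e1, e2, e3]
    have hks := key_sum (N := NI (x / 32) x (QQ x) b) (W2 := fun n => Wt E z y P n ^ 2)
      (pwf := pw x) (M := M) (U := U) (l := l) (Q := QQ x) (b := b) (P := P) (X := X)
      (D := Dt E z y P) (o := o) (η := η) (CP := CP) (K := K)
      (fun n _ => sq_nonneg _) (fun m => pw_le_one x m (by omega)) (fun m hm => pw_of_not x m hm)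
      (hcop b) hX0 (by linarith only [hη0, hη1, hDt]) hCP.le (by linarith only [hk0, hK, hη0, hη1])
      (by
        intro a ha j hj
        rw [hX, ho]
        exact hLB E z x y v1 hSr b hb P hPy hPom2 j (by rw [hy]; exact blk_sub ha hj)
          (by rw [hP]; exact blk_notMem ha hj))
      (by
        intro a ha j hj j' hj' hne
        rw [hX, ho]
        exact hPB E z x y v2 hSr b hb P hPy hPom2 j (by rw [hy]; exact blk_sub ha hj)
          j' (by rw [hy]; exact blk_sub ha hj') (by rw [hP]; exact blk_notMem ha hj)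
          (by rw [hP]; exact blk_notMem ha hj') hne)
      (by
        rw [hX]
        exact hKQ' E z x y v4 hSr b hb P hPy hPom)
      hS'
    have hRC' := hRC E z x y v11 hSr b hb P hPy hPom2
    rw [← hX] at hRC'
    have hXD : 0 < X * Dt E z y P := mul_pos hX0 (by linarith only [hη0, hη1, hDt])
    have hRr : (M : ℝ) * ∑ n ∈ NI (x / 32) x (QQ x) b, Wt E z y P n ^ 2 *
        ((P.filter (fun h => Rg y z (n + h))).card : ℝ) ≤
        ((E ^ 3 : ℕ) : ℝ) * ((X * Dt E z y P) / 2) := by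
      have e1 : (1 : ℝ) ≤ E := by
        have : 0 < E := by exact_mod_cast u2
        exact_mod_cast this
      have e3 := nl9 (Nat.cast_nonneg M) hCR.le hXD.le u2.le hRC' (nl8 e1 hPom2) v13'
      push_cast
      exact e3
    have hk2' := key3 (N := NI (x / 32) x (QQ x) b) (W2 := fun n => Wt E z y P n ^ 2)
      (rp := fun n => ((P.filter (fun h => Rg y z (n + h))).card : ℝ))
      (M := M) (U := U) (l := l) (P := P) (X := X) (D := Dt E z y P) (K := K) (B := B)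
      (T := ((E ^ 3 : ℕ) : ℝ))
      (fun n _ => sq_nonneg _) hB0.le (fun n _ => Nat.cast_nonneg _)
      (by
        intro n hn hrn
        rw [hB]
        unfold NI at hn
        rw [mem_filter, mem_Ioc] at hn
        exact hSU E z x y v10 hSr (mE E) (qE E) g1
          ((Nat.mul_le_mul_right _ (nl7 hqE)).trans g2) g7 (pow36 g4) P hPy n hn.1.2
          (by exact_mod_cast hrn))
      (by
        have : 0 < E := by exact_mod_cast u2
        exact_mod_cast pow_pos this 3)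
      hX0 hDt (by rw [hK]; linarith only [hk0, hη0, hη1]) hpos hRr hks
    refine hk2'.trans ?_
    rw [← mul_assoc]
    refine mul_le_mul_of_nonneg_left ?_ (by positivity)
    refine Nat.cast_le.2 (card_le_card ?_)
    intro n hn
    rw [mem_filter] at hn ⊢
    refine ⟨hn.1, ?_⟩
    have hbr := hn.2
    rw [hP] at hbr
    exact window hK (hcop b n hn.1) hbr
  -- the total
  refine ⟨M, U, l, s1, ?_, by rw [← hy]; exact s7, ?_⟩
  · push_cast
    exact nl10 hMk (Nat.cast_nonneg _) hC''0.le (by exact_mod_cast s5) (Nat.cast_nonneg _) s2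
      (mul_nonneg (by linarith only [hη0, hη1, hlam3]) s12.le) (le_max_right _ _)
  have htot : (G.card : ℝ) * X ≤ 2 * (M * B) * (((Ioc (x / 32) x).filter (fun n =>
      (∀ h ∈ Icc 1 (M * (U + l)), (∀ a < M, h ∉ blk U l a) → ¬ (n + h).Prime) ∧
      (k : ℝ) + 2 < ∑ a ∈ range M, ((nb n U l a : ℝ) -
        ((k : ℝ) + 2) * ((nb n U l a : ℝ) * ((nb n U l a : ℝ) - 1) / 2)))).card : ℝ) := by
    have e1 := sum_le_sum hclass
    rw [sum_const, nsmul_eq_mul, ← mul_sum] at e1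
    refine e1.trans (mul_le_mul_of_nonneg_left ?_ (by positivity))
    rw [← Nat.cast_sum]
    refine Nat.cast_le.2 ?_
    rw [← card_biUnion]
    · refine card_le_card ?_
      intro n hn
      obtain ⟨b, hb, hnb⟩ := mem_biUnion.1 hn
      unfold NI at hnb
      rw [mem_filter, mem_filter] at hnb
      exact mem_filter.2 ⟨hnb.1.1, hnb.2⟩
    · intro b _ b' _ hne
      rw [Function.onFun, Finset.disjoint_left]
      intro n hn hn'
      unfold NI at hn hn'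
      rw [mem_filter, mem_filter] at hn hn'
      exact hne (hn.1.2.symm.trans hn'.1.2)
  generalize (((Ioc (x / 32) x).filter (fun n =>
      (∀ h ∈ Icc 1 (M * (U + l)), (∀ a < M, h ∉ blk U l a) → ¬ (n + h).Prime) ∧
      (k : ℝ) + 2 < ∑ a ∈ range M, ((nb n U l a : ℝ) -
        ((k : ℝ) + 2) * ((nb n U l a : ℝ) * ((nb n U l a : ℝ) - 1) / 2)))).card : ℝ) = NN at *
  have hx2 : (x : ℝ) ≤ 2 * (X * QQ x) := by
    rw [hXv]
    have : x ≤ 2 * (x - x / 32) := by omega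
    exact_mod_cast this
  have q1 : X * QQ x ≤ 2 * C5 * CB ^ 2 * R ^ 2 * (2 * (M * B) * NN) := by
    calc X * QQ x ≤ X * (2 * C5 * CB ^ 2 * R ^ 2 * G.card) :=
          mul_le_mul_of_nonneg_left hGc hX0.le
      _ = 2 * C5 * CB ^ 2 * R ^ 2 * (G.card * X) := by ring
      _ ≤ _ := mul_le_mul_of_nonneg_left htot (by positivity)
  have q2 : (x : ℝ) ≤ Z * B * NN := by
    rw [hZ]
    calc (x : ℝ) ≤ 2 * (X * QQ x) := hx2
      _ ≤ 2 * (2 * C5 * CB ^ 2 * R ^ 2 * (2 * (M * B) * NN)) := by linarith only [q1]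
      _ = _ := by ring
  have q3 : Z * B ≤ Real.exp (Real.exp (4 * D0 * (k : ℝ) ^ 2 * lam)) := by
    have a1 : 4 * D0 * (k : ℝ) ^ 2 * lam = 2 * (2 * (D * lam)) := by rw [hD]; ring
    rw [a1]
    have a2 : 3 ≤ Real.exp (2 * (D * lam)) := by
      have b1 : 3 * 1 ≤ D * lam := mul_le_mul hD3 hlam1 (by norm_num) (by linarith only [hη0, hη1, hD3])
      have := Real.add_one_le_exp (2 * (D * lam))
      linarith only [hη0, hη1, b1, this]
    have a3 : Z ≤ Real.exp (Real.exp (2 * (D * lam))) := by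
      have b2 : lam ≤ 2 * (D * lam) := by nlinarith only [hD, hk0, hlam3, hD03, hD3]
      have b3 := Real.add_one_le_exp (2 * (D * lam))
      have b4 := Real.add_one_le_exp (Real.exp (2 * (D * lam)))
      linarith only [hη0, hη1, hlamZ, b2, b3, b4]
    have a4 : B ≤ Real.exp (2 * Real.exp (2 * (D * lam))) := by
      rw [hB]
      apply Real.exp_le_exp.2
      have b1 : (E : ℝ) ^ 2 ≤ (2 * Real.exp (D * lam)) ^ 2 :=
        pow_le_pow_left₀ (Nat.cast_nonneg _) u7 2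
      have b2 : (2 * Real.exp (D * lam)) ^ 2 = 4 * Real.exp (2 * (D * lam)) := by
        rw [mul_pow, ← Real.exp_nat_mul]
        norm_num
      linarith only [b1, b2]
    calc Z * B ≤ Real.exp (Real.exp (2 * (D * lam))) *
          Real.exp (2 * Real.exp (2 * (D * lam))) := mul_le_mul a3 a4 hB0.le (Real.exp_pos _).le
      _ = Real.exp (3 * Real.exp (2 * (D * lam))) := by rw [← Real.exp_add]; ring_nf
      _ ≤ Real.exp (Real.exp (2 * (2 * (D * lam)))) := by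
          apply Real.exp_le_exp.2
          have b1 : Real.exp (2 * (2 * (D * lam))) =
              Real.exp (2 * (D * lam)) * Real.exp (2 * (D * lam)) := by
            rw [← Real.exp_add]
            ring_nf
          rw [b1]
          exact mul_le_mul_of_nonneg_right a2 (Real.exp_pos _).le
  have q4 : (0 : ℝ) < x := by
    have : 0 < x := by omega
    exact_mod_cast this
  have q5 : 0 ≤ NN := by
    by_contra hcon
    push Not at hcon
    have : Z * B * NN < 0 := mul_neg_of_pos_of_neg (by positivity) hcon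
    linarith only [q2, q4, this]
  have q6 : Real.exp (Real.exp (4 * D0 * (k : ℝ) ^ 2 * lam)) ≤
      Real.exp (Real.exp (max (4 * D0) (4 * C'') * (k : ℝ) ^ 2 * lam)) := by
    apply Real.exp_le_exp.2
    apply Real.exp_le_exp.2
    exact nl11 (le_max_left _ _) (sq_nonneg _) (by linarith only [hη0, hη1, hlam3])
  rw [Real.exp_neg, ← div_eq_mul_inv, div_le_iff₀ (Real.exp_pos _)]
  calc (x : ℝ) ≤ Z * B * NN := q2
    _ ≤ Real.exp (Real.exp (max (4 * D0) (4 * C'') * (k : ℝ) ^ 2 * lam)) * NN :=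
        mul_le_mul_of_nonneg_right (q3.trans q6) q5
    _ = _ := mul_comm _ _

end Pool.Agent.Helper88.TU
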