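import Pool.Agent.Helper88.TU.Fin
import Pool.Agent.Helper88.TU.AF
import Pool.Agent.Helper88.TU.TE
import Pool.Agent.Helper88.TU.KQ
import Pool.Agent.Helper88.CG.MainA
import Pool.Agent.Helper10.TU.BH
import Pool.Agent.Helper57.TU.BM
import Pool.Agent.Helper51.TU.TL
import Pool.Agent.Helper60.TU.EB
import Pool.Agent.Helper16.TU.TG
import Pool.Agent.Helper55.TU.S1
import Pool.Agent.Helper80.TU.BT
import Pool.Agent.Helper80.TU.SU
import Pool.Agent.Helper70.TU.CO
import Pool.Agent.Helper46.TU.PB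
import Pool.Agent.Helper32.TU.LB
import Pool.Agent.Helper94.TU.RC
import Pool.Agent.Helper56.TU.A4

/-! # TU: the assembly, everything but `ER` and `GT` -/

set_option autoImplicit false

namespace Pool.Agent.Helper88.TU

theorem mTL : StmtTL :=
  Pool.Agent.Helper51.TU.tl Pool.Agent.Helper10.TU.bh Pool.Agent.Helper57.TU.bm

theorem mTG : StmtTG := Pool.Agent.Helper16.TU.tg mTL

theorem mS1 : StmtS1 := Pool.Agent.Helper55.TU.s1 mTG

theorem mEB : StmtEB :=
  Pool.Agent.Helper60.TU.eb Pool.Agent.Helper10.TU.bh Pool.Agent.Helper57.TU.bm mTL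

theorem mTE : StmtTE := te Pool.Agent.Helper88.CG.mRB

theorem mCO : StmtCO := Pool.Agent.Helper70.TU.co mTG

/-- everything but `ER` and `GT` -/
theorem mUD (hER : StmtER) (hGT : StmtGT) : StmtUD :=
  fin (af (Pool.Agent.Helper32.TU.lb hER mCO) (Pool.Agent.Helper46.TU.pb mTG)
    (Pool.Agent.Helper80.TU.bt mTG) (kq Pool.Agent.Helper88.CG.vp mS1 hGT)
    Pool.Agent.Helper61.CG.a1 Pool.Agent.Helper5.CG.a3 Pool.Agent.Helper56.TU.a4 mS1
    Pool.Agent.Helper80.TU.su (Pool.Agent.Helper94.TU.rc mTG))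

end Pool.Agent.Helper88.TU
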