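import Pool.Agent.Helper88.TU.MainA
import Pool.Agent.Helper46.TU.ER
import Pool.Agent.Helper91.TU.GT

/-! # TU: the main theorem -/

set_option autoImplicit false

namespace Pool.Agent.Helper88.TU

theorem mER : StmtER := Pool.Agent.Helper46.TU.er mEB mTE Pool.Agent.Helper57.TU.bm

theorem mGT : StmtGT := Pool.Agent.Helper91.TU.gt mTG

/-- uniform chains of large gaps between consecutive primes -/
theorem main : StmtUD := mUD mER mGT

end Pool.Agent.Helper88.TU
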